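import Pool.Agent.H509.ST.Stm

/-!
Project ST (helper509), part UNR: two definitions of unramified prime ideals (helper588).
-/

set_option autoImplicit false

open NumberField IsDedekindDomain

namespace Pool.Agent.H588.ST

open Pool.Agent.N598.ST (Unram)

theorem ram_iff (K H : Type) [Field K] [NumberField K] [Field H] [NumberField H] [Algebra K H]
    (v : HeightOneSpectrum (𝓞 K)) (P : HeightOneSpectrum (𝓞 H)) (hP : P.asIdeal.LiesOver v.asIdeal) :
    P.asIdeal.ramificationIdx (𝓞 K) = 1 ↔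
      ¬ P.asIdeal ^ 2 ∣ v.asIdeal.map (algebraMap (𝓞 K) (𝓞 H)) := by
  have := v.isPrime
  have := P.isPrime
  have hle : v.asIdeal.map (algebraMap (𝓞 K) (𝓞 H)) ≤ P.asIdeal :=
    Ideal.map_le_iff_le_comap.mpr hP.over.le
  rw [← Ideal.ramificationIdx'_eq_ramificationIdx v.asIdeal P.asIdeal v.ne_bot, Ideal.dvd_iff_le,
    ← Ideal.ramificationIdx'_ne_one_iff hle, not_not]

theorem unr : Pool.Agent.STk.S_UNR := by
  intro K H _ _ _ _ _ _ v
  have hI0 : v.asIdeal.map (algebraMap (𝓞 K) (𝓞 H)) ≠ ⊥ :=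
    Ideal.map_ne_bot_of_ne_bot v.ne_bot
  constructor
  · intro h x hx
    by_contra hu
    rw [Ideal.isUnit_iff] at hu
    obtain ⟨P, hPm, hxP⟩ := Ideal.exists_le_maximal x hu
    have hx0 : x ≠ ⊥ := by
      intro h0
      rw [h0] at hx
      apply hI0
      have h1 : (⊥ : Ideal (𝓞 H)) * ⊥ = 0 := by simp
      rw [h1, zero_dvd_iff] at hx
      exact hx
    have hP0 : P ≠ ⊥ := by
      intro h0
      rw [h0, le_bot_iff] at hxP
      exact hx0 hxP
    have hdvd : P ^ 2 ∣ v.asIdeal.map (algebraMap (𝓞 K) (𝓞 H)) := by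
      rw [pow_two]
      exact (mul_dvd_mul (Ideal.dvd_iff_le.2 hxP) (Ideal.dvd_iff_le.2 hxP)).trans hx
    have hle : v.asIdeal.map (algebraMap (𝓞 K) (𝓞 H)) ≤ P :=
      (Ideal.dvd_iff_le.1 hdvd).trans (Ideal.pow_le_self two_ne_zero)
    have hover : P.LiesOver v.asIdeal := by
      refine ⟨v.isMaximal.eq_of_le ?_ (Ideal.map_le_iff_le_comap.1 hle)⟩
      exact Ideal.comap_ne_top _ hPm.ne_top
    have h2 := h ⟨P, hPm.isPrime, hP0⟩ hover
    exact (ram_iff K H v ⟨P, hPm.isPrime, hP0⟩ hover).1 h2 hdvd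
  · intro h P hP
    rw [ram_iff K H v P hP]
    intro hdvd
    rw [pow_two] at hdvd
    exact P.isPrime.ne_top (Ideal.isUnit_iff.1 (h _ hdvd))

end Pool.Agent.H588.ST
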