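import Pool.Agent.H509.ST.Stm
import Pool.Graph.R_seed8.R426.QC.Ep

/-! Project ST (helper509), brick EUL: the Euler product of the sum of the partial zeta functions. -/

set_option autoImplicit false

open NumberField IsDedekindDomain Filter Topology

noncomputable section

namespace Pool.Agent.H596.ST

open Pool.Agent.N598.ST (IsArtin IsZeta PrimeTo Place)
open Pool.Agent.STk
open Pool.Agent.R426.QC

section prim

variable {K : Type} [Field K] [NumberField K] (S : Finset (Place K))

theorem primeTo_mul (I J : Ideal (𝓞 K)) : PrimeTo S (I * J) ↔ PrimeTo S I ∧ PrimeTo S J := by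
  unfold PrimeTo
  constructor
  · rintro ⟨h1, h2⟩
    refine ⟨⟨fun h => h1 ?_, fun q hq h => h2 q hq (Ideal.mul_le_left.trans h)⟩,
      ⟨fun h => h1 ?_, fun q hq h => h2 q hq (Ideal.mul_le_right.trans h)⟩⟩
    · rw [h]; exact Ideal.bot_mul J
    · rw [h]; exact Ideal.mul_bot I
  · rintro ⟨⟨h1, h2⟩, h3, h4⟩
    refine ⟨mul_ne_zero h1 h3, fun q hq h => ?_⟩
    rcases q.isPrime.mul_le.1 h with h | h
    · exact h2 q hq h
    · exact h4 q hq h

theorem primeTo_top : PrimeTo S (⊤ : Ideal (𝓞 K)) :=
  ⟨top_ne_bot, fun q _ h => q.isPrime.ne_top (top_le_iff.1 h)⟩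

theorem primeTo_prime (v : HeightOneSpectrum (𝓞 K)) : PrimeTo S v.asIdeal ↔ v ∉ S.toRight := by
  rw [Finset.mem_toRight]
  constructor
  · intro h hv
    exact h.2 v hv le_rfl
  · intro hv
    refine ⟨v.ne_bot, fun q hq h => hv ?_⟩
    have h1 : v.asIdeal = q.asIdeal := v.isMaximal.eq_of_le q.isPrime.ne_top h
    rw [HeightOneSpectrum.ext h1]
    exact hq

end prim

open Classical in
/-- the terms of the Dirichlet series -/
def fT {K H G : Type} [Field K] [NumberField K] [Field H] [NumberField H] [Algebra K H] [CommGroup G]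
    (e : Gal(H/K) ≃* G) (S : Finset (Place K)) (a : Ideal (𝓞 K) → Gal(H/K)) (χ : G →* ℂˣ) (s : ℂ)
    (I : Ideal (𝓞 K)) : ℂ :=
  if PrimeTo S I then (χ (e (a I)) : ℂ) * (Ideal.absNorm I : ℂ) ^ (-s) else 0

theorem eul : S_EUL := by
  classical
  intro K H G _ _ _ _ _ _ _ _ _ e S a ha Z hZ χ s hs
  -- the Dirichlet series
  have hsum : HasSum (fT e S a χ s) (∑ g : Gal(H/K), (χ (e g) : ℂ) * Z g s) := by
    have h1 := hasSum_sum (s := (Finset.univ : Finset Gal(H/K))) fun g _ =>
      ((hZ g).sum s hs).mul_left (χ (e g) : ℂ)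
    have h2 : fT e S a χ s = fun I : Ideal (𝓞 K) => ∑ g : Gal(H/K), (χ (e g) : ℂ) *
        (if PrimeTo S I ∧ a I = g then (Ideal.absNorm I : ℂ) ^ (-s) else 0) := by
      funext I
      unfold fT
      by_cases hI : PrimeTo S I
      · rw [if_pos hI, Finset.sum_eq_single (a I)]
        · rw [if_pos ⟨hI, rfl⟩]
        · intro g _ hg
          rw [if_neg fun h => hg h.2.symm, mul_zero]
        · intro h
          exact absurd (Finset.mem_univ _) h
      · rw [if_neg hI]
        symm
        apply Finset.sum_eq_zero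
        intro g _
        rw [if_neg fun h => hI h.1, mul_zero]
    rw [h2]
    exact h1
  have hcmi : CMI (fT e S a χ s) :=
    { zero := by
        unfold fT
        rw [if_neg]
        exact fun h => h.1 rfl
      one := by
        unfold fT
        rw [if_pos (primeTo_top S), ha.one, map_one, map_one, Ideal.absNorm_top, Nat.cast_one,
          Complex.one_cpow, Units.val_one, mul_one]
      mul := by
        intro I J
        unfold fT
        by_cases hI : PrimeTo S I
        · by_cases hJ : PrimeTo S J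
          · rw [if_pos hI, if_pos hJ, if_pos ((primeTo_mul S I J).2 ⟨hI, hJ⟩), ha.mul I J hI hJ,
              map_mul, map_mul, Units.val_mul, map_mul, Nat.cast_mul, Complex.natCast_mul_natCast_cpow]
            ring
          · rw [if_neg hJ, mul_zero, if_neg fun h => hJ ((primeTo_mul S I J).1 h).2]
        · rw [if_neg hI, zero_mul, if_neg fun h => hI ((primeTo_mul S I J).1 h).1]
      summ := hsum.summable }
  have hprod := hasProdI hcmi
  rw [hsum.tsum_eq] at hprod
  have hsupp : Function.mulSupport (fun v : HeightOneSpectrum (𝓞 K) => (1 - fT e S a χ s v.asIdeal)⁻¹) ⊆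
      {v | v ∉ S.toRight} := by
    intro v hv hv'
    apply hv
    show (1 - fT e S a χ s v.asIdeal)⁻¹ = 1
    unfold fT
    rw [if_neg fun h => ((primeTo_prime S v).1 h) hv', sub_zero, inv_one]
  rw [← hasProd_subtype_iff_of_mulSupport_subset hsupp] at hprod
  have hfun : ((fun v : HeightOneSpectrum (𝓞 K) => (1 - fT e S a χ s v.asIdeal)⁻¹) ∘
      ((↑) : {v : HeightOneSpectrum (𝓞 K) | v ∉ S.toRight} → HeightOneSpectrum (𝓞 K))) =
      fun v : {v : HeightOneSpectrum (𝓞 K) // v ∉ S.toRight} =>
        (1 - (χ (e (a (v : HeightOneSpectrum (𝓞 K)).asIdeal)) : ℂ) *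
          (Ideal.absNorm (v : HeightOneSpectrum (𝓞 K)).asIdeal : ℂ) ^ (-s))⁻¹ := by
    funext v
    show (1 - fT e S a χ s v.1.asIdeal)⁻¹ = _
    unfold fT
    rw [if_pos ((primeTo_prime S v.1).2 v.2)]
  rw [hfun] at hprod
  exact hprod

end Pool.Agent.H596.ST
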