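import Pool.Agent.H509.ST.Stm

/-!
Assembly of project ST.
-/

set_option autoImplicit false

open NumberField IsDedekindDomain Filter Topology

noncomputable section

namespace Pool.Agent.H120.ST

open Pool.Agent.STk
open Pool.Agent.K3h30.RS (RubinData Fixes Conj InS Above IsFrob GHom Wedge toQ toR reg charValue act av
  unitGroup)
open Pool.Agent.N598.ST (Data IsArtin IsZeta Stark TotallySplit Over nabs Unram PrimeTo W AbRoot InU
  Place)
open Pool.Agent.H509 (Popescu)

theorem nabs_one {H : Type} [Field H] [NumberField H] (Q : Place H) : nabs Q (1 : H) = 1 := by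
  rcases Q with w | P
  · simp only [nabs, map_one, one_pow]
  · simp only [nabs, map_one]

theorem abRoot_one (K H : Type) [Field K] [NumberField K] [Field H] [NumberField H] [Algebra K H]
    [IsAbelianGalois K H] (w : ℕ) : AbRoot K w (1 : H) := by
  refine ⟨H, inferInstance, inferInstance, Algebra.id H, inferInstance, inferInstance, 1, ?_, ?_⟩
  · rw [one_pow, map_one]
  · rw [eq_top_iff]
    intro x _
    exact (IntermediateField.adjoin H {(1 : H)}).algebraMap_mem x

theorem card_three {α : Type} [DecidableEq α] {S : Finset α} {a b c : α} (ha : a ∈ S) (hb : b ∈ S)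
    (hc : c ∈ S) (h1 : a ≠ b) (h2 : a ≠ c) (h3 : b ≠ c) : 3 ≤ S.card := by
  have h : ({a, b, c} : Finset α) ⊆ S := by
    intro x hx
    simp only [Finset.mem_insert, Finset.mem_singleton] at hx
    rcases hx with rfl | rfl | rfl <;> assumption
  have h4 : ({a, b, c} : Finset α).card = 3 := Finset.card_eq_three.2 ⟨a, b, c, h1, h2, h3, rfl⟩
  rw [← h4]
  exact Finset.card_le_card h

theorem asm (h1 : S_EUL) (h2 : S_SPL) (h3 : S_CNJ) (h4 : S_INS) (h5 : S_UNR) (h6 : S_OVX)
    (h7 : S_ZERO) (h8 : S_DAT) (h9 : S_LIN) (h10 : S_UNI) : S_ST := by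
  classical
  intro K H G _ _ _ _ _ _ _ _ _ e he hG S p hD hcard hPop P hP a ha Z hZ
  by_cases hq : ∃ q ∈ S, q ≠ p ∧ TotallySplit K H q
  · obtain ⟨q, hqS, hqp, hqs⟩ := hq
    have h3c : 3 ≤ S.card := by
      rcases hcard with h | ⟨r, hrS, hr⟩
      · exact h
      · refine card_three hD.mem hqS hrS (Ne.symm hqp) ?_ ?_
        · rintro rfl
          exact hr hD.split
        · rintro rfl
          exact hr hqs
    have hz := h7 h1 h2 h5 K H G e he hG S hD.arch hD.ram h3c p hD.mem q hqS (Ne.symm hqp) hD.split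
      hqs a ha Z hZ
    have : IsGalois K H := IsGaloisGroup.isGalois G K H
    have : IsMulCommutative Gal(H/K) :=
      ⟨⟨fun x y => e.injective (by rw [map_mul, map_mul, mul_comm])⟩⟩
    have : IsAbelianGalois K H := ⟨⟩
    refine ⟨1, ⟨one_ne_zero, fun _ _ _ _ => nabs_one _, fun _ _ _ _ _ _ => nabs_one _,
      fun _ _ _ _ _ _ _ _ => by rw [nabs_one, nabs_one]⟩, fun g => ?_, abRoot_one K H _⟩
    rw [map_one, nabs_one, Real.log_one, hz g, mul_zero, neg_zero, Complex.ofReal_zero]
  · have hns : ∀ q ∈ S, q ≠ p → ¬ TotallySplit K H q := fun q hqS hqp hqs =>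
      hq ⟨q, hqS, hqp, hqs⟩
    obtain ⟨D, hDS, hDr, hDw, hDL⟩ :=
      h8 h1 h2 h3 h4 h5 h6 K H G e he S p hD hns a ha Z hZ P hP
    exact h10 h9 h2 h3 h4 h6 K H G e he S p hD Z (fun g => (hZ g).hol) P hP D hDS hDr hDw hDL
      (hPop D hDS hDr)

end Pool.Agent.H120.ST
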