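import Pool.Agent.H509.ST.Stm

/-!
# Project ST (helper509), DAT: the data of Popescu's conjecture from partial zeta functions
-/

set_option autoImplicit false
set_option linter.unusedSectionVars false

open NumberField IsDedekindDomain Filter Topology

noncomputable section

namespace Pool.Agent.H71.ST

open Pool.Agent.STk
open Pool.Agent.K3h30.RS (RubinData Fixes Conj InS Above IsFrob GHom Wedge toQ toR reg charValue act av
  unitGroup)
open Pool.Agent.N598.ST (Data IsArtin IsZeta Stark TotallySplit Over nabs Unram PrimeTo W AbRoot InU
  Place)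

variable {K H G : Type} [Field K] [NumberField K] [Field H] [NumberField H] [Algebra K H]
  [CommGroup G] [Finite G] [MulSemiringAction G H] [IsGaloisGroup G K H]

/-- every place lies over a place -/
theorem exists_below (Q : Place H) : ∃ q : Place K, Over K H Q q := by
  rcases Q with w | w
  · exact ⟨Sum.inl (w.comap (algebraMap K H)), rfl⟩
  · refine ⟨Sum.inr (HeightOneSpectrum.under (𝓞 K) w), ?_⟩
    exact ⟨rfl⟩

/-- the place below is unique -/
theorem below_unique {Q : Place H} {q q' : Place K} (h : Over K H Q q) (h' : Over K H Q q') :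
    q = q' := by
  rcases Q with w | w
  · rcases q with v | v
    · rcases q' with v' | v'
      · have h1 : w.comap (algebraMap K H) = v := h
        have h2 : w.comap (algebraMap K H) = v' := h'
        rw [← h1, h2]
      · exact absurd h' (fun h => h)
    · exact absurd h (fun h => h)
  · rcases q with v | v
    · exact absurd h (fun h => h)
    · rcases q' with v' | v'
      · exact absurd h' (fun h => h)
      · have h1 : w.asIdeal.LiesOver v.asIdeal := h
        have h2 : w.asIdeal.LiesOver v'.asIdeal := h'
        have h3 : v.asIdeal = v'.asIdeal := h1.over.trans h2.over.symm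
        rw [HeightOneSpectrum.ext h3]

/-- **DAT**: the data of Popescu's conjecture. -/
theorem dat : S_DAT := by
  intro hEUL hSPL hCNJ hINS hUNR hOVX K H G _ _ _ _ _ _ _ _ _ e he S p hD hns a ha Z hZ P hP
  have hgal : IsGalois K H := IsGaloisGroup.isGalois G K H
  have hmem : ∀ v : HeightOneSpectrum (𝓞 K), v ∉ S.toRight → Sum.inr v ∉ S := fun v hv h =>
    hv (Finset.mem_toRight.2 h)
  let D : RubinData K H G :=
    { S := S.toRight
      unramified := fun v hv => (hUNR K H v).1 (hD.ram v (hmem v hv))
      r := 1
      w := fun _ => P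
      inS := fun _ => (hINS K H S hD.arch P p hP).2 hD.mem
      splits := fun _ => (hSPL K H G p).1 hD.split P hP
      distinct := fun i j _ => Subsingleton.elim i j
      all := by
        intro u hu hfix
        obtain ⟨q, hq⟩ := exists_below (K := K) u
        have hqS : q ∈ S := (hINS K H S hD.arch u q hq).1 hu
        have hsplit : TotallySplit K H q := by
          refine (hSPL K H G q).2 fun Q hQ γ hγ => ?_
          obtain ⟨δ, hδ⟩ := (hCNJ K H G u Q q hq).1 hQ
          refine hfix γ fun x => ?_
          rw [hδ (γ • x), hδ x, smul_smul, mul_comm, ← smul_smul]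
          exact hγ (δ • x)
        have hqp : q = p := by
          by_contra hne
          exact hns q hqS hne hsplit
        subst hqp
        exact ⟨0, (hCNJ K H G u P q hq).1 hP⟩
      more := by
        obtain ⟨q, hq, hne⟩ : ∃ q ∈ S, q ≠ p := by
          have h1 : 1 < S.card := hD.two_le
          obtain ⟨x, hx, y, hy, hxy⟩ := Finset.one_lt_card.1 h1
          by_cases h : x = p
          · exact ⟨y, hy, fun h' => hxy (h.trans h'.symm)⟩
          · exact ⟨x, hx, h⟩
        obtain ⟨Q, hQ⟩ := hOVX K H q
        refine ⟨Q, (hINS K H S hD.arch Q q hQ).2 hq, fun _ hc => ?_⟩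
        have h1 := (hCNJ K H G Q P q hQ).2 hc
        exact hne (below_unique h1 hP)
      σ := fun v => e (a v.asIdeal)
      frob := by
        rintro v hv w ⟨v', hv', hw⟩ x
        rw [Set.mem_singleton_iff] at hv'
        subst hv'
        have hlies : w.asIdeal.LiesOver v'.asIdeal := ⟨hw.symm⟩
        have hint : IsIntegral ℤ (e (a v'.asIdeal) • (x : H) -
            (x : H) ^ (Ideal.absNorm v'.asIdeal)) := by
          rw [he]
          exact ((RingOfIntegers.isIntegral_coe x).map
            ((a v'.asIdeal : Gal(H/K)).restrictScalars ℤ).toAlgHom).sub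
            ((RingOfIntegers.isIntegral_coe x).pow _)
        have h1 := ha.frob v' (hmem v' hv) w hlies x ⟨_, hint⟩ (by rw [← he]; rfl)
        have h2 := (HeightOneSpectrum.valuation_lt_one_iff_mem (K := H) w
          (⟨_, hint⟩ : 𝓞 H)).2 h1
        exact h2
      L := fun χ s => ∑ g : Gal(H/K), (χ (e g) : ℂ) * Z g s
      analytic := fun χ => DifferentiableOn.fun_sum fun g _ => ((hZ g).hol).const_mul _
      euler := fun χ s hs => hEUL K H G e S a ha Z hZ χ s hs }
  exact ⟨D, rfl, rfl, fun _ => rfl, fun _ _ => rfl⟩

end Pool.Agent.H71.ST
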