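import Pool.Agent.H509.ST.Stm
import Pool.Graph.R_pool_sql_team_seeded_5cf16337.K3h73.E2.Places
import Pool.Graph.R_pool_sql_team_seeded_5cf16337.K3h50.E2.Inf
import Pool.Graph.R_pool_sql_team_seeded_5cf16337.K3h92.RS.Fix

/-!
# Project ST (helper509), brick PLA: the dictionary for the places
-/

set_option autoImplicit false
set_option linter.unusedSectionVars false

open NumberField IsDedekindDomain

noncomputable section

namespace Pool.Agent.H181.ST

open Pool.Agent.K3h30.RS (Fixes Conj InS Above av above_singleton above_iff)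
open Pool.Agent.N598.ST (TotallySplit Over Place)
open Pool.Agent.K3h73.E2 (Below exists_below below_unique exists_over conj_of_below below_of_conj)
open Pool.Agent.STk

section

variable {K H : Type} [Field K] [NumberField K] [Field H] [NumberField H] [Algebra K H]

theorem lies_iff (P : HeightOneSpectrum (𝓞 H)) (p : HeightOneSpectrum (𝓞 K)) :
    P.asIdeal.LiesOver p.asIdeal ↔ Above {p} P := by
  rw [above_singleton]
  exact ⟨fun h => h.over.symm, fun h => ⟨h.symm⟩⟩

theorem over_iff (Q : Place H) (q : Place K) : Over K H Q q ↔ Below q Q := by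
  rcases Q with Q | Q <;> rcases q with q | q
  · exact Iff.rfl
  · exact Iff.rfl
  · exact Iff.rfl
  · exact lies_iff Q q

end

theorem ovx : S_OVX := by
  intro K H _ _ _ _ _ _ q
  obtain ⟨w, hw⟩ := exists_over (H := H) q
  exact ⟨w, (over_iff w q).2 hw⟩

theorem ins : S_INS := by
  intro K H _ _ _ _ _ S hS Q q h
  rcases Q with Q | Q <;> rcases q with q | q
  · exact ⟨fun _ => hS q, fun _ => trivial⟩
  · exact h.elim
  · exact h.elim
  · show Above _ Q ↔ _
    rw [above_iff ((lies_iff Q q).1 h), Finset.mem_coe, Finset.mem_toRight]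

theorem cnj : S_CNJ := by
  intro K H G _ _ _ _ _ _ _ _ _ Q Q' q h
  rw [over_iff] at h ⊢
  constructor
  · intro h'
    exact conj_of_below h h'
  · intro hc
    obtain ⟨q', hq'⟩ := exists_below (F := K) Q'
    rw [below_of_conj h hq' hc]
    exact hq'

section spl

variable {K H G : Type} [Field K] [NumberField K] [Field H] [NumberField H] [Algebra K H]
  [CommGroup G] [Finite G] [MulSemiringAction G H] [IsGaloisGroup G K H]

theorem spl_inf (w : InfinitePlace H) :
    w.mult = (w.comap (algebraMap K H)).mult ↔ ∀ γ : G, Fixes (Sum.inl w : Place H) γ → γ = 1 := by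
  have : IsGalois K H := IsGaloisGroup.isGalois G K H
  have h1 : w.mult = (w.comap (algebraMap K H)).mult ↔ w.IsUnramified K := by
    rw [InfinitePlace.IsUnramified]
    exact eq_comm
  rw [h1, InfinitePlace.isUnramified_iff_stabilizer_eq_bot]
  constructor
  · intro h γ hγ
    rw [Pool.Agent.K3h50.E2.fixes_iff] at hγ
    have h2 : (IsGaloisGroup.mulEquivAlgEquiv G K H γ)⁻¹ ∈ MulAction.stabilizer Gal(H/K) w := by
      rw [MulAction.mem_stabilizer_iff]
      refine InfinitePlace.ext _ _ fun x => ?_
      rw [InfinitePlace.smul_apply]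
      exact hγ x
    rw [h, Subgroup.mem_bot, inv_eq_one] at h2
    rwa [map_eq_one_iff _ (IsGaloisGroup.mulEquivAlgEquiv G K H).injective] at h2
  · intro h
    rw [eq_bot_iff]
    intro σ hσ
    rw [Subgroup.mem_bot]
    obtain ⟨γ, hγ⟩ := (IsGaloisGroup.mulEquivAlgEquiv G K H).surjective σ⁻¹
    have h2 : γ = 1 := by
      refine h γ ?_
      rw [Pool.Agent.K3h50.E2.fixes_iff]
      intro x
      have h3 : γ • x = σ⁻¹ x := by
        rw [← hγ]
        rfl
      rw [MulAction.mem_stabilizer_iff] at hσ
      have h4 := congrArg (fun u : InfinitePlace H => u x) hσ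
      simp only [InfinitePlace.smul_apply] at h4
      rw [h3]
      exact h4
    rw [h2, map_one] at hγ
    exact inv_eq_one.1 hγ.symm

open scoped Pointwise in
theorem spl_fin (P : HeightOneSpectrum (𝓞 H)) (p : HeightOneSpectrum (𝓞 K))
    (h : P.asIdeal.LiesOver p.asIdeal) :
    (P.asIdeal.ramificationIdx (𝓞 K) = 1 ∧ P.asIdeal.inertiaDeg (𝓞 K) = 1) ↔
      ∀ γ : G, Fixes (Sum.inr P : Place H) γ → γ = 1 := by
  have hwp := P.isPrime
  have hvp := p.isPrime
  have hvm := p.isMaximal
  have : PerfectField p.asIdeal.ResidueField := by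
    have hf : Finite (𝓞 K ⧸ p.asIdeal) := Ideal.finiteQuotientOfFreeOfNeBot _ p.ne_bot
    have hf2 : Finite p.asIdeal.ResidueField :=
      Finite.of_surjective _ (Ideal.bijective_algebraMap_quotient_residueField p.asIdeal).2
    infer_instance
  have hgal : IsGaloisGroup G (𝓞 K) (𝓞 H) := inferInstance
  have hcard := Ideal.card_stabilizer_eq (G := G) p.asIdeal P.asIdeal
  rw [Ideal.ramificationIdxIn_eq_ramificationIdx p.asIdeal P.asIdeal G,
    Ideal.inertiaDegIn_eq_inertiaDeg p.asIdeal P.asIdeal G] at hcard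
  have h1 : (P.asIdeal.ramificationIdx (𝓞 K) = 1 ∧ P.asIdeal.inertiaDeg (𝓞 K) = 1) ↔
      MulAction.stabilizer G P.asIdeal = ⊥ := by
    rw [← Subgroup.card_eq_one, hcard, mul_eq_one]
  rw [h1]
  constructor
  · intro h γ hγ
    have h2 : γ ∈ MulAction.stabilizer G P.asIdeal := by
      rw [MulAction.mem_stabilizer_iff]
      ext x
      rw [Ideal.mem_pointwise_smul_iff_inv_smul_mem, ← Pool.Agent.K3h92.RS.fixes_mem hγ,
        smul_inv_smul]
    rwa [h, Subgroup.mem_bot] at h2
  · intro h
    rw [eq_bot_iff]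
    intro γ hγ
    rw [Subgroup.mem_bot]
    refine h γ fun x => ?_
    rw [MulAction.mem_stabilizer_iff] at hγ
    have h2 : ∀ x : 𝓞 H, x ∈ P.asIdeal ↔ γ • x ∈ P.asIdeal := by
      intro x
      conv_rhs => rw [← hγ]
      exact Ideal.smul_mem_pointwise_smul_iff.symm
    have h3 := Pool.Agent.K3h25.RS.val_aut P P γ h2 x
    change HeightOneSpectrum.adicAbv H P (γ • x) = HeightOneSpectrum.adicAbv H P x
    rw [HeightOneSpectrum.adicAbv_def, HeightOneSpectrum.adicAbv_def, h3]

end spl

theorem spl : S_SPL := by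
  intro K H G _ _ _ _ _ _ _ _ _ q
  rcases q with v | p
  · constructor
    · intro h Q hQ
      rcases Q with w | P
      · have h1 : w.comap (algebraMap K H) = v := hQ
        rw [← spl_inf (K := K) (G := G) w, h1]
        exact h w h1
      · exact hQ.elim
    · intro h w hw
      have h1 := h (Sum.inl w) hw
      rw [← spl_inf (K := K) (G := G) w, hw] at h1
      exact h1
  · constructor
    · intro h Q hQ
      rcases Q with w | P
      · exact hQ.elim
      · exact (spl_fin P p hQ).1 (h P hQ)
    · intro h P hP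
      exact (spl_fin P p hP).2 (h (Sum.inr P) hP)

end Pool.Agent.H181.ST
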