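import Pool.Agent.H509.ST.Stm

/-!
# Signs of the Stark unit at real places
(project ST of helper509, written by helper539)
-/

set_option autoImplicit false
set_option linter.unusedSectionVars false
set_option linter.style.haveILetI false

open NumberField IsDedekindDomain

noncomputable section

namespace Pool.Agent.H539.ST

open Pool.Agent.N598.ST (AbRoot AbOm Place nabs IsArtin IsZeta comm_of_abelian)
open Pool.Agent.H509 (commField mem_commField commField_abelian normal_closure abOm_of_abRoot)
open Pool.Agent.STk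

/-- The square root of `-1` generates an abelian extension. -/
theorem abOm_neg_one (K H : Type) [Field K] [NumberField K] [Field H] [NumberField H]
    [Algebra K H] [IsAbelianGalois K H] : AbOm K 2 (-1 : H) := by
  have := normal_closure K H
  let iH : H →ₐ[K] AlgebraicClosure H := IsScalarTower.toAlgHom K H (AlgebraicClosure H)
  have h2 : IsAbelianGalois K iH.fieldRange :=
    IsAbelianGalois.of_algHom (AlgEquiv.ofInjectiveField iH).symm.toAlgHom
  obtain ⟨z, hz⟩ := IsAlgClosed.exists_pow_nat_eq (-1 : AlgebraicClosure H) (n := 2) (by norm_num)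
  refine ⟨commField K (AlgebraicClosure H), commField_abelian, fun h => ?_, z, ?_, ?_⟩
  · rw [mem_commField]
    intro σ τ
    exact comm_of_abelian iH.fieldRange σ τ _ ⟨h, rfl⟩
  · rw [mem_commField]
    intro σ τ
    have key : ∀ ρ : AlgebraicClosure H ≃ₐ[K] AlgebraicClosure H, ρ z = z ∨ ρ z = -z := by
      intro ρ
      apply sq_eq_sq_iff_eq_or_eq_neg.1
      rw [← map_pow, hz, map_neg, map_one]
    rcases key σ with h | h <;> rcases key τ with h' | h'
    · rw [h', h, h']
    · rw [h', map_neg, h, h']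
    · rw [h', h, map_neg, h']
    · rw [h', h, map_neg, map_neg, h, h']
  · rw [hz, map_neg, map_one]

/-- The signs of the conjugates of an element with an abelian square root. -/
theorem signs {K H : Type} [Field K] [NumberField K] [Field H] [NumberField H] [Algebra K H]
    [IsAbelianGalois K H] {u : H} (hu : u ≠ 0) (hab : AbRoot K 2 u) (s₁ : K →+* ℝ)
    (σ : H →+* ℝ) (hσ : σ.comp (algebraMap K H) = s₁) :
    (∀ ρ : Gal(H/K), 0 < σ (ρ u)) ∨ (∀ ρ : Gal(H/K), σ (ρ u) < 0) := by
  obtain ⟨M, _, _, _, _, hM, z, hz, -⟩ := hab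
  letI aK : Algebra K ℂ := (Complex.ofRealHom.comp s₁).toAlgebra
  letI aH : Algebra H ℂ := (Complex.ofRealHom.comp σ).toAlgebra
  have hKH : IsScalarTower K H ℂ := IsScalarTower.of_algebraMap_eq fun x => by
    change Complex.ofRealHom (s₁ x) = Complex.ofRealHom (σ (algebraMap K H x))
    rw [← hσ]
    rfl
  have hMK : Algebra.IsAlgebraic K M := inferInstance
  have hMH : Algebra.IsAlgebraic H M := Algebra.IsAlgebraic.tower_top (K := K) H
  let j : M →ₐ[H] ℂ := IsAlgClosed.lift
  letI aM : Algebra M ℂ := j.toRingHom.toAlgebra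
  have hjH : ∀ h : H, algebraMap M ℂ (algebraMap H M h) = ((σ h : ℝ) : ℂ) := fun h => j.commutes h
  have hKM : IsScalarTower K M ℂ := IsScalarTower.of_algebraMap_eq fun x => by
    rw [IsScalarTower.algebraMap_apply K H M, hjH]
    change Complex.ofRealHom (s₁ x) = Complex.ofRealHom (σ (algebraMap K H x))
    rw [← hσ]
    rfl
  have hinj : Function.Injective (algebraMap M ℂ) := (algebraMap M ℂ).injective
  let cK : ℂ →ₐ[K] ℂ :=
    { (starRingEnd ℂ : ℂ →+* ℂ) with
      commutes' := fun x => by
        change (starRingEnd ℂ) (Complex.ofRealHom (s₁ x)) = Complex.ofRealHom (s₁ x)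
        exact Complex.conj_ofReal _ }
  have hcK : ∀ w : ℂ, cK w = (starRingEnd ℂ) w := fun _ => rfl
  -- the complex conjugation of `M`
  let τ : Gal(M/K) := AlgHom.restrictNormal' cK M
  have hτ : ∀ x : M, algebraMap M ℂ (τ x) = (starRingEnd ℂ) (algebraMap M ℂ x) := fun x => by
    rw [← hcK]
    exact AlgHom.restrictNormal_commutes cK M x
  have hτH : ∀ h : H, τ (algebraMap H M h) = algebraMap H M h := by
    intro h
    apply hinj
    rw [hτ, hjH, Complex.conj_ofReal]
  have hz0 : z ≠ 0 := by
    rintro rfl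
    apply hu
    apply (algebraMap H M).injective
    rw [← hz, map_zero]
    ring
  have hτz : τ z = z ∨ τ z = -z := by
    apply sq_eq_sq_iff_eq_or_eq_neg.1
    rw [← map_pow, hz, hτH]
  -- the conjugates
  have hρ : ∀ ρ : Gal(H/K), (τ z = z → 0 < σ (ρ u)) ∧ (τ z = -z → σ (ρ u) < 0) := by
    intro ρ
    let ρ' : Gal(M/K) := ρ.liftNormal M
    have h1 : (ρ' z) ^ 2 = algebraMap H M (ρ u) := by
      rw [← map_pow, hz]
      exact AlgEquiv.liftNormal_commutes ρ M u
    have h2 : τ (ρ' z) = ρ' (τ z) := by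
      have h3 := (IsMulCommutative.is_comm (M := Gal(M/K))).comm τ ρ'
      exact DFunLike.congr_fun h3 z
    have h0 : algebraMap M ℂ (ρ' z) ≠ 0 := by
      intro h
      have h3 : ρ' z = 0 := hinj (by rw [h, map_zero])
      exact hz0 ((map_eq_zero_iff ρ' ρ'.injective).1 h3)
    have h4 : (algebraMap M ℂ (ρ' z)) ^ 2 = ((σ (ρ u) : ℝ) : ℂ) := by
      rw [← map_pow, h1, hjH]
    have h5 := hτ (ρ' z)
    rw [h2] at h5
    set w := algebraMap M ℂ (ρ' z) with hw
    constructor
    · intro h
      rw [h, ← hw] at h5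
      have h6 : w = ((w.re : ℝ) : ℂ) := (Complex.conj_eq_iff_real.1 h5.symm).elim fun r hr => by
        rw [hr, Complex.ofReal_re]
      have h7 : w.re ≠ 0 := by
        intro h8
        apply h0
        rw [h6, h8, Complex.ofReal_zero]
      rw [h6] at h4
      have h8 : w.re ^ 2 = σ (ρ u) := by exact_mod_cast h4
      rw [← h8]
      positivity
    · intro h
      rw [h, map_neg, map_neg, ← hw] at h5
      have h6 : w.re = 0 := by
        have h7 := congrArg Complex.re h5
        rw [Complex.neg_re, Complex.conj_re] at h7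
        linarith
      have h7 : w.im ≠ 0 := by
        intro h8
        apply h0
        exact Complex.ext h6 h8
      have h8 : σ (ρ u) = w.re ^ 2 - w.im ^ 2 := by
        have h9 := congrArg Complex.re h4
        rw [Complex.ofReal_re, sq, Complex.mul_re] at h9
        rw [← h9]
        ring
      rw [h8, h6]
      have : 0 < w.im ^ 2 := by positivity
      linarith
  rcases hτz with h | h
  · exact Or.inl fun ρ => (hρ ρ).1 h
  · exact Or.inr fun ρ => (hρ ρ).2 h

/-- Elements with trivial finite absolute values are units. -/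
theorem exists_unit {H : Type} [Field H] [NumberField H] {u : H} (hu : u ≠ 0)
    (h : ∀ P : HeightOneSpectrum (𝓞 H), nabs (.inr P) u = 1) :
    ∃ ε : (𝓞 H)ˣ, ((ε : 𝓞 H) : H) = u := by
  have h1 : ∀ P : HeightOneSpectrum (𝓞 H), P.valuation H u = 1 := by
    intro P
    have h2 : (NumberField.HeightOneSpectrum.adicAbv H P u : ℝ) = 1 := h P
    rw [NumberField.HeightOneSpectrum.adicAbv_def] at h2
    have h3 : WithZeroMulInt.toNNReal (NumberField.HeightOneSpectrum.absNorm_ne_zero P)
        (P.valuation H u) = 1 := by exact_mod_cast h2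
    refine (WithZeroMulInt.toNNReal_eq_one_iff _ _ ?_).1 h3
    exact (NumberField.HeightOneSpectrum.one_lt_absNorm_nnreal P).ne'
  obtain ⟨a, ha⟩ := HeightOneSpectrum.mem_integers_of_valuation_le_one H u
    fun P => (h1 P).le
  obtain ⟨b, hb⟩ := HeightOneSpectrum.mem_integers_of_valuation_le_one H u⁻¹
    fun P => by rw [map_inv₀, h1 P, inv_one]
  have hab : a * b = 1 := by
    apply IsFractionRing.injective (𝓞 H) H
    rw [map_mul, map_one]
    exact (congrArg₂ (· * ·) ha hb).trans (mul_inv_cancel₀ hu)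
  exact ⟨⟨a, b, hab, by rw [mul_comm]; exact hab⟩, ha⟩

/-- **REAL.** -/
theorem real : S_REAL := by
  intro K H _ _ _ _ _ _ S s₁ v₁ hv₁ hR σ hσ a ha ζ hζ
  set v : InfinitePlace H := InfinitePlace.mk (Complex.ofRealHom.comp σ) with hv
  have hcomp : (Complex.ofRealHom.comp σ).comp (algebraMap K H) = Complex.ofRealHom.comp s₁ := by
    rw [RingHom.comp_assoc, hσ]
  have hvv : v.comap (algebraMap K H) = v₁ := by
    rw [hv, InfinitePlace.comap_mk, hcomp, hv₁]
  obtain ⟨u, hu0, hout, hlog, hab⟩ := hR v hvv a ha ζ hζ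
  have hvu : ∀ x : H, v x = |σ x| := by
    intro x
    rw [hv, InfinitePlace.apply]
    change ‖((σ x : ℝ) : ℂ)‖ = _
    rw [Complex.norm_real, Real.norm_eq_abs]
  have hσ0 : ∀ ρ : Gal(H/K), σ (ρ u) ≠ 0 := by
    intro ρ h
    have h1 : ρ u = 0 := (map_eq_zero_iff σ σ.injective).1 h
    exact hu0 ((map_eq_zero_iff ρ ρ.injective).1 h1)
  have hexp : ∀ ρ : Gal(H/K), ((|σ (ρ u)| : ℝ) : ℂ) = Complex.exp (-(2 * deriv (ζ ρ) 0)) := by
    intro ρ
    have h1 := hlog ρ
    rw [hvu] at h1
    push_cast at h1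
    rw [mul_one] at h1
    rw [← h1, ← Complex.ofReal_exp, Real.exp_log (abs_pos.2 (hσ0 ρ))]
  have hone : ∀ τ : H →+* ℂ, τ.comp (algebraMap K H) ≠ Complex.ofRealHom.comp s₁ →
      ‖τ u‖ = 1 := by
    intro τ hτ
    have h1 := hout (.inl (InfinitePlace.mk τ)) (by
      intro v' hv' h2
      obtain rfl : InfinitePlace.mk τ = v' := Sum.inl_injective hv'
      rw [InfinitePlace.comap_mk, hv₁, InfinitePlace.mk_eq_iff] at h2
      rcases h2 with h2 | h2
      · exact hτ h2
      · apply hτ
        rw [← h2]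
        ext x
        have h3 := RingHom.congr_fun h2 x
        rw [h3]
        have h4 : (ComplexEmbedding.conjugate (τ.comp (algebraMap K H))) x =
            (starRingEnd ℂ) (τ.comp (algebraMap K H) x) := rfl
        rw [h4] at h3
        have h5 := congrArg (starRingEnd ℂ) h3
        rw [Complex.conj_conj] at h5
        rw [h5]
        exact Complex.conj_ofReal _)
    have h2 : (InfinitePlace.mk τ) u ^ (InfinitePlace.mk τ).mult = 1 := h1
    have h3 := (pow_eq_one_iff_of_nonneg (apply_nonneg _ _) (InfinitePlace.mult_ne_zero)).1 h2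
    rwa [InfinitePlace.apply] at h3
  obtain ⟨ε, hε⟩ := exists_unit hu0 fun P => hout (.inr P) fun v' hv' => absurd hv' (by simp)
  rcases signs hu0 hab s₁ σ hσ with hs | hs
  · refine ⟨ε, fun ρ => ?_, fun τ hτ => ?_, ?_⟩
    · rw [hε, ← hexp ρ, abs_of_pos (hs ρ)]
    · rw [hε]
      exact hone τ hτ
    · rw [hε]
      exact hab
  · have hnε : (((-ε : (𝓞 H)ˣ) : 𝓞 H) : H) = -u := by
      rw [Units.val_neg, ← hε]
      rfl
    refine ⟨-ε, fun ρ => ?_, fun τ hτ => ?_, ?_⟩
    · rw [hnε, map_neg, map_neg, ← hexp ρ, abs_of_neg (hs ρ)]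
    · rw [hnε, map_neg, norm_neg]
      exact hone τ hτ
    · rw [hnε, show -u = (-1) * u by ring]
      exact ((abOm_neg_one K H).mul (abOm_of_abRoot hab)).abRoot

end Pool.Agent.H539.ST
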