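import Pool.Agent.H509.ST.Stm
import Pool.Graph.R_pool_sql_team_seeded_5cf16337.K3h40.RS.SpanReg

/-!
# ST-UNI: the element from Popescu's conjecture has the right absolute values
-/

set_option autoImplicit false
set_option linter.unusedSectionVars false

open NumberField IsDedekindDomain Filter Topology

noncomputable section

namespace Pool.Agent.H233.ST

open Pool.Agent.STk
open Pool.Agent.K3h30.RS (RubinData Fixes Conj InS Above IsFrob GHom Wedge toQ toR reg charValue act av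
  unitGroup)
open Pool.Agent.N598.ST (Data IsArtin IsZeta Stark TotallySplit Over nabs Unram PrimeTo W AbRoot InU
  Place)
open Pool.Agent.H509 (Popescu)
open Pool.Agent.K3h62.RS (cvHom charValue_eq charValue_mul)
open Pool.Agent.K3h40.RS (PP PP_conj charValue_reg av_pos act_val)

/-- the characters separate the functions -/
theorem sep {G : Type} [CommGroup G] [Fintype G] (f : G → ℂ)
    (hf : ∀ χ : G →* ℂˣ, ∑ γ : G, f γ * (χ γ : ℂ) = 0) (g : G) : f g = 0 := by
  classical
  have h1 : ∀ ψ : AddChar (Additive G) ℂ,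
      ∑ γ : G, f γ * ψ (Additive.ofMul γ) = 0 := by
    intro ψ
    let θ : G →* ℂ :=
      { toFun := fun g => ψ (Additive.ofMul g)
        map_one' := by rw [ofMul_one, AddChar.map_zero_eq_one]
        map_mul' := by intro a b; rw [ofMul_mul, AddChar.map_add_eq_mul] }
    have h2 := hf (MonoidHom.toHomUnits θ)
    rw [← h2]
    refine Finset.sum_congr rfl fun γ _ => ?_
    have h3 : ((MonoidHom.toHomUnits θ γ : ℂˣ) : ℂ) = θ γ := by
      exact MonoidHom.coe_toHomUnits θ γ
    rw [h3]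
    rfl
  have h4 : ∑ ψ : AddChar (Additive G) ℂ, ψ (-(Additive.ofMul g)) *
      ∑ γ : G, f γ * ψ (Additive.ofMul γ) = 0 :=
    Finset.sum_eq_zero fun ψ _ => by rw [h1 ψ, mul_zero]
  have h5 : ∑ ψ : AddChar (Additive G) ℂ, ψ (-(Additive.ofMul g)) *
      ∑ γ : G, f γ * ψ (Additive.ofMul γ) =
      ∑ γ : G, f γ *
        ∑ ψ : AddChar (Additive G) ℂ, ψ (Additive.ofMul γ - Additive.ofMul g) := by
    simp_rw [Finset.mul_sum]
    rw [Finset.sum_comm]
    refine Finset.sum_congr rfl fun γ _ => Finset.sum_congr rfl fun ψ _ => ?_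
    rw [sub_eq_add_neg, AddChar.map_add_eq_mul]
    ring
  rw [h5] at h4
  have h6 : ∀ γ : G, ∑ ψ : AddChar (Additive G) ℂ, ψ (Additive.ofMul γ - Additive.ofMul g) =
      if γ = g then (Fintype.card (Additive G) : ℂ) else 0 := by
    intro γ
    rw [AddChar.sum_apply_eq_ite]
    by_cases h : γ = g
    · subst h
      simp
    · rw [if_neg h, if_neg]
      intro h7
      exact h (Additive.ofMul.injective (sub_eq_zero.1 h7))
  simp_rw [h6] at h4
  simp only [mul_ite, mul_zero, Finset.sum_ite_eq', Finset.mem_univ, if_true] at h4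
  have h7 : (Fintype.card (Additive G) : ℂ) ≠ 0 := by
    exact_mod_cast Fintype.card_ne_zero
  exact (mul_eq_zero.1 h4).resolve_right h7

theorem sep' {G : Type} [CommGroup G] [Fintype G] (f : G → ℂ)
    (hf : ∀ χ : G →* ℂˣ, ∑ γ : G, ((χ γ : ℂ))⁻¹ * f γ = 0) (g : G) : f g = 0 := by
  refine sep f (fun χ => ?_) g
  rw [← hf χ⁻¹]
  refine Finset.sum_congr rfl fun γ _ => ?_
  rw [MonoidHom.inv_apply, Units.val_inv_eq_inv_val, inv_inv, mul_comm]

theorem nabs_eq {H : Type} [Field H] [NumberField H] (Q : Place H) (x : H) : nabs Q x = av Q x := by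
  cases Q <;> rfl

/-- the derivative from the limit -/
theorem deriv_of_lim {f : ℂ → ℂ} {A : ℂ} (hf : DifferentiableAt ℂ f 0)
    (h : Tendsto (fun s : ℂ => (s ^ 1)⁻¹ * f s) (𝓝[≠] 0) (𝓝 A)) : deriv f 0 = A := by
  have h1 : Tendsto (fun s : ℂ => s) (𝓝[≠] 0) (𝓝 0) := tendsto_id.mono_left nhdsWithin_le_nhds
  have h2 := h1.mul h
  rw [zero_mul] at h2
  have h3 : Tendsto f (𝓝[≠] 0) (𝓝 0) := by
    refine h2.congr' ?_
    filter_upwards [self_mem_nhdsWithin] with s hs
    have hs' : s ≠ 0 := hs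
    field_simp
  have h4 : Tendsto f (𝓝[≠] 0) (𝓝 (f 0)) := hf.continuousAt.tendsto.mono_left nhdsWithin_le_nhds
  have h5 : f 0 = 0 := tendsto_nhds_unique h4 h3
  have h6 := hasDerivAt_iff_tendsto_slope.1 hf.hasDerivAt
  refine tendsto_nhds_unique h6 (h.congr' ?_)
  filter_upwards [self_mem_nhdsWithin] with s hs
  rw [slope_def_field, h5]
  rw [sub_zero, sub_zero, pow_one]
  ring

/-- the place below is unique -/
theorem over_unique {K H : Type} [Field K] [NumberField K] [Field H] [NumberField H] [Algebra K H]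
    {Q : Place H} {q q' : Place K} (h : Over K H Q q) (h' : Over K H Q q') : q = q' := by
  rcases Q with w | w <;> rcases q with v | v <;> rcases q' with v' | v'
  · have h1 : w.comap (algebraMap K H) = v := h
    have h2 : w.comap (algebraMap K H) = v' := h'
    rw [← h1, ← h2]
  · exact absurd h' (by simp [Over])
  · exact absurd h (by simp [Over])
  · exact absurd h (by simp [Over])
  · exact absurd h (by simp [Over])
  · exact absurd h (by simp [Over])
  · exact absurd h' (by simp [Over])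
  · have h1 : w.asIdeal.LiesOver v.asIdeal := h
    have h2 : w.asIdeal.LiesOver v'.asIdeal := h'
    congr 1
    apply HeightOneSpectrum.ext
    rw [h1.over, h2.over]

theorem torsion_eq (H : Type) [Field H] [NumberField H] : Units.torsionOrder H = W H := by
  unfold Units.torsionOrder W
  refine Nat.card_congr (Equiv.ofBijective (fun x : Units.torsion H =>
    (⟨Units.map (algebraMap (𝓞 H) H : 𝓞 H →* H) x.1,
      (Units.map (algebraMap (𝓞 H) H : 𝓞 H →* H)).isOfFinOrder x.2⟩ : CommGroup.torsion Hˣ)) ⟨?_, ?_⟩)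
  · intro x y h
    have h1 := congrArg (fun z : CommGroup.torsion Hˣ => ((z : Hˣ) : H)) h
    apply Subtype.ext
    apply _root_.Units.ext
    exact RingOfIntegers.ext h1
  · rintro ⟨x, hx⟩
    have hx' := hx
    rw [CommGroup.mem_torsion, isOfFinOrder_iff_pow_eq_one] at hx
    obtain ⟨n, hn, hxn⟩ := hx
    have h1 : ∀ y : Hˣ, y ^ n = 1 → IsIntegral ℤ (y : H) := by
      intro y hy
      refine IsIntegral.of_pow hn ?_
      rw [← Units.val_pow_eq_pow_val, hy, Units.val_one]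
      exact isIntegral_one
    have h2 : x⁻¹ ^ n = 1 := by rw [inv_pow, hxn, inv_one]
    let a : 𝓞 H := ⟨(x : H), h1 x hxn⟩
    let b : 𝓞 H := ⟨((x⁻¹ : Hˣ) : H), h1 _ h2⟩
    have hab : a * b = 1 := by
      apply RingOfIntegers.ext
      show (x : H) * ((x⁻¹ : Hˣ) : H) = 1
      exact x.mul_inv
    have hba : b * a = 1 := by rw [mul_comm, hab]
    let y : (𝓞 H)ˣ := ⟨a, b, hab, hba⟩
    refine ⟨⟨y, ?_⟩, ?_⟩
    · show y ∈ CommGroup.torsion (𝓞 H)ˣ
      rw [CommGroup.mem_torsion, isOfFinOrder_iff_pow_eq_one]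
      refine ⟨n, hn, ?_⟩
      apply _root_.Units.ext
      rw [Units.val_pow_eq_pow_val, Units.val_one]
      apply RingOfIntegers.ext
      show (algebraMap (𝓞 H) H) (a ^ n) = 1
      rw [map_pow]
      show (x : H) ^ n = 1
      rw [← Units.val_pow_eq_pow_val, hxn, Units.val_one]
    · apply Subtype.ext
      apply _root_.Units.ext
      rfl

theorem uni : S_UNI := by
  intro hLIN _ hCNJ hINS hOVX K H G _ _ _ _ _ _ _ _ _ e he S p hD Z hZ P hP D hDS hDr hDw hDL hPop
  classical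
  let _ := Fintype.ofFinite G
  have : IsGalois K H := IsGaloisGroup.isGalois G K H
  obtain ⟨u, hER, hEv, hφ⟩ := hPop
  -- the index
  let j0 : Fin D.r := ⟨0, by omega⟩
  have : Unique (Fin D.r) := ⟨⟨j0⟩, fun j => Fin.ext (by have := j.2; show j.1 = 0; omega)⟩
  have hdet : ∀ {R : Type} [CommRing R] (A : Matrix (Fin D.r) (Fin D.r) R), A.det = A j0 j0 := by
    intro R _ A
    rw [Matrix.det_unique A, Subsingleton.elim (default : Fin D.r) j0]
  have f0 : GHom G (D.U ∅) := ⟨0, fun _ _ _ _ => by simp⟩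
  obtain ⟨m, hm, ε, hab, hval⟩ := hφ j0 (fun _ => f0)
  have hm1 : m = 1 := Submonoid.mem_bot.1 hm
  subst hm1
  set w : ℕ := Units.torsionOrder H with hw
  -- the logarithms
  have hv : ∀ f : GHom G (D.U ∅), ∑ k, (w : MonoidAlgebra ℚ G) * u.c k * toQ (f.f (Additive.ofMul (u.x k j0))) =
      toQ (f.f (Additive.ofMul ε)) := by
    intro f
    rw [← hval f, Nat.cast_one, one_mul]
    unfold Wedge.value
    rw [Finset.mul_sum]
    refine Finset.sum_congr rfl fun k _ => ?_
    rw [hdet, Matrix.of_apply, Function.update_self, mul_assoc]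
  have hlin : ∀ Q : Place H, reg G Q (ε : Hˣ) = ∑ k, toR ((w : MonoidAlgebra ℚ G) * u.c k) *
      reg G Q (u.x k j0 : Hˣ) := by
    refine hLIN K H G D.S ∅ u.n (fun k => (w : MonoidAlgebra ℚ G) * u.c k) (fun k => u.x k j0) ε ?_
    intro f
    exact hv f
  have hPP : ∀ (χ : G →* ℂˣ) (Q : Place H), PP χ Q (ε : Hˣ) =
      w * ∑ k, charValue χ (toR (u.c k)) * PP χ Q (u.x k j0 : Hˣ) := by
    intro χ Q
    rw [← charValue_reg, hlin Q, charValue_eq, map_sum, Finset.mul_sum]
    refine Finset.sum_congr rfl fun k _ => ?_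
    rw [map_mul, map_mul, map_natCast, map_mul, map_natCast, ← charValue_eq, ← charValue_eq, charValue_reg, mul_assoc]
  -- the derivatives
  have hZ0 : ∀ g, HasDerivAt (Z g) (deriv (Z g) 0) 0 := by
    intro g
    have h1 : ({1}ᶜ : Set ℂ) ∈ 𝓝 (0 : ℂ) := isOpen_compl_singleton.mem_nhds (by simp)
    exact ((hZ g).differentiableAt h1).hasDerivAt
  have hder : ∀ χ : G →* ℂˣ, PP χ P (ε : Hˣ) = -(w * ∑ g : Gal(H/K), ((χ (e g) : ℂ))⁻¹ * deriv (Z g) 0) := by
    intro χ
    have h1 : HasDerivAt (D.L χ⁻¹) (∑ g : Gal(H/K), ((χ (e g) : ℂ))⁻¹ * deriv (Z g) 0) 0 := by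
      have h2 : D.L χ⁻¹ = fun s => ∑ g : Gal(H/K), ((χ (e g) : ℂ))⁻¹ * Z g s := by
        funext s
        rw [hDL]
        refine Finset.sum_congr rfl fun g _ => ?_
        rw [MonoidHom.inv_apply, Units.val_inv_eq_inv_val]
      rw [h2]
      exact HasDerivAt.fun_sum fun g _ => (hZ0 g).const_mul _
    have h3 := hEv χ
    have h4 : charValue χ (∑ k, toR (u.c k) *
        Matrix.det (Matrix.of fun a b => -reg G (D.w a) (u.x k b : Hˣ))) =
        -∑ k, charValue χ (toR (u.c k)) * PP χ P (u.x k j0 : Hˣ) := by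
      rw [charValue_eq, map_sum, ← Finset.sum_neg_distrib]
      refine Finset.sum_congr rfl fun k _ => ?_
      rw [hdet, Matrix.of_apply, map_mul, map_neg, hDw, ← charValue_eq, ← charValue_eq, charValue_reg, mul_neg]
    have hpow : ∀ s : ℂ, s ^ D.r = s ^ 1 := fun s => by rw [hDr]
    rw [h4] at h3
    simp only [hpow] at h3
    have h5 := deriv_of_lim h1.differentiableAt h3
    rw [h1.deriv] at h5
    rw [hPP χ P, h5]
    ring
  have hlog : ∀ g : Gal(H/K), (Real.log (av P (g ((ε : Hˣ) : H))) : ℂ) = -(w * deriv (Z g) 0) := by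
    have h1 : ∀ γ : G, (Real.log (av P ((act γ (ε : Hˣ) : Hˣ) : H)) : ℂ) + w * deriv (Z (e.symm γ)) 0 = 0 := by
      refine sep' _ fun χ => ?_
      have h2 := hder χ
      have h3 : ∑ g : Gal(H/K), ((χ (e g) : ℂ))⁻¹ * deriv (Z g) 0 =
          ∑ γ : G, ((χ γ : ℂ))⁻¹ * deriv (Z (e.symm γ)) 0 := by
        rw [← Equiv.sum_comp e.toEquiv (fun γ : G => ((χ γ : ℂ))⁻¹ * deriv (Z (e.symm γ)) 0)]
        refine Finset.sum_congr rfl fun g _ => ?_
        simp
      rw [h3] at h2
      have h4 : PP χ P (ε : Hˣ) = ∑ γ : G, ((χ γ : ℂ))⁻¹ *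
          ((Real.log (av P ((act γ (ε : Hˣ) : Hˣ) : H)) : ℝ) : ℂ) := rfl
      rw [h4] at h2
      simp_rw [mul_add]
      rw [Finset.sum_add_distrib, h2, Finset.mul_sum, neg_add_eq_zero]
      refine Finset.sum_congr rfl fun γ _ => ?_
      ring
    intro g
    have h2 := h1 (e g)
    rw [act_val, he, e.symm_apply_apply] at h2
    linear_combination h2
  -- the other places
  have key : ∀ q ∈ S, q ≠ p → ∀ Q : Place H, Over K H Q q → ∀ χ : G →* ℂˣ, (χ = 1 → 3 ≤ S.card) →
      PP χ Q (ε : Hˣ) = 0 := by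
    intro q hq hqp Q hQ χ hχ
    have hQS : InS (D.S : Set (HeightOneSpectrum (𝓞 K))) Q := by
      rw [hDS]
      exact (hINS K H S hD.arch Q q hQ).2 hq
    have hQP : ∀ (q' : Place K) (Q' : Place H), q' ≠ p → Over K H Q' q' → ∀ i, ¬ Conj G Q' (D.w i) := by
      intro q' Q' hq' hQ' i hc
      rw [hDw] at hc
      exact hq' (over_unique ((hCNJ K H G Q' P q' hQ').2 hc) hP)
    by_cases hA : D.Active χ
    · rcases hA with hA | ⟨h1, hA⟩
      · obtain ⟨γ₀, hγ, hχγ⟩ := hA Q hQS (hQP q Q hqp hQ)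
        have h2 := PP_conj χ Q Q γ₀ (fun x => (hγ x).symm) (ε : Hˣ)
        have h3 : (1 - (χ γ₀ : ℂ)) * PP χ Q (ε : Hˣ) = 0 := by linear_combination h2
        rcases mul_eq_zero.1 h3 with h4 | h4
        · exfalso
          apply hχγ
          apply Units.ext
          rw [Units.val_one]
          exact (sub_eq_zero.1 h4).symm
        · exact h4
      · exfalso
        have h2 := hχ h1
        have h3 : 0 < ((S.erase p).erase q).card := by
          rw [Finset.card_erase_of_mem (Finset.mem_erase.2 ⟨hqp, hq⟩), Finset.card_erase_of_mem hD.mem]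
          omega
        obtain ⟨q', hq'⟩ := Finset.card_pos.1 h3
        rw [Finset.mem_erase, Finset.mem_erase] at hq'
        obtain ⟨hq'q, hq'p, hq'S⟩ := hq'
        obtain ⟨Q', hQ'⟩ := hOVX K H q'
        have hQS' : InS (D.S : Set (HeightOneSpectrum (𝓞 K))) Q' := by
          rw [hDS]
          exact (hINS K H S hD.arch Q' q' hQ').2 hq'S
        have h4 := hA Q Q' hQS hQS' (hQP q Q hqp hQ) (hQP q' Q' hq'p hQ')
        exact hq'q (over_unique hQ' ((hCNJ K H G Q Q' q hQ).2 h4))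
    · rw [hPP χ Q, Finset.sum_eq_zero, mul_zero]
      intro k _
      rw [hER χ hA k, zero_mul]
  have hact1 : act (1 : G) (ε : Hˣ) = (ε : Hˣ) := by
    apply Units.ext
    rw [act_val, one_smul]
  refine ⟨((ε : Hˣ) : H), ⟨(ε : Hˣ).ne_zero, ?_, ?_, ?_⟩, ?_, ?_⟩
  · -- out
    intro q hq Q hQ
    have h1 : ¬ InS (S.toRight : Set (HeightOneSpectrum (𝓞 K))) Q := fun h => hq ((hINS K H S hD.arch Q q hQ).1 h)
    rcases Q with Q | Q
    · exact absurd trivial h1
    · have h2 : ¬ Above (S.toRight : Set (HeightOneSpectrum (𝓞 K))) Q := h1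
      have h3 := ε.2
      have h4 : Q.valuation H ((ε : Hˣ) : H) = 1 := by
        refine h3.1 Q ?_
        rw [hDS]
        exact h2
      show HeightOneSpectrum.adicAbv H Q ((ε : Hˣ) : H) = 1
      rw [HeightOneSpectrum.adicAbv_def, h4, map_one]
      rfl
  · -- many
    intro h3 q hq hqp Q hQ
    have h1 : ∀ γ : G, ((Real.log (av Q ((act γ (ε : Hˣ) : Hˣ) : H)) : ℝ) : ℂ) = 0 := by
      refine sep' _ fun χ => ?_
      exact key q hq hqp Q hQ χ (fun _ => h3)
    have h2 := h1 1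
    rw [hact1] at h2
    have h4 : Real.log (av Q ((ε : Hˣ) : H)) = 0 := by exact_mod_cast h2
    rw [nabs_eq]
    exact Real.eq_one_of_pos_of_log_eq_zero (av_pos Q (ε : Hˣ)) h4
  · -- single
    intro h3 q hq hqp Q Q' hQ hQ'
    obtain ⟨γ₁, hγ₁⟩ := (hCNJ K H G Q Q' q hQ).1 hQ'
    have h1 : ∀ γ : G, ((Real.log (av Q ((act γ (ε : Hˣ) : Hˣ) : H)) : ℝ) : ℂ) -
        ((Real.log (av Q' ((act γ (ε : Hˣ) : Hˣ) : H)) : ℝ) : ℂ) = 0 := by
      refine sep' _ fun χ => ?_
      have h2 : PP χ Q (ε : Hˣ) - PP χ Q' (ε : Hˣ) = 0 := by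
        by_cases hχ : χ = 1
        · have h4 := PP_conj χ Q Q' γ₁ hγ₁ (ε : Hˣ)
          rw [h4, hχ]
          simp
        · rw [key q hq hqp Q hQ χ (fun h => absurd h hχ), key q hq hqp Q' hQ' χ (fun h => absurd h hχ), sub_zero]
      have h5 : PP χ Q (ε : Hˣ) - PP χ Q' (ε : Hˣ) = ∑ γ : G, (((χ γ : ℂ))⁻¹ *
          ((Real.log (av Q ((act γ (ε : Hˣ) : Hˣ) : H)) : ℝ) : ℂ) - ((χ γ : ℂ))⁻¹ *
          ((Real.log (av Q' ((act γ (ε : Hˣ) : Hˣ) : H)) : ℝ) : ℂ)) := by
        rw [Finset.sum_sub_distrib]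
        rfl
      rw [← h2, h5]
      refine Finset.sum_congr rfl fun γ _ => ?_
      rw [mul_sub]
    have h2 := h1 1
    rw [hact1] at h2
    have h4 : Real.log (av Q ((ε : Hˣ) : H)) = Real.log (av Q' ((ε : Hˣ) : H)) := by
      have h5 := sub_eq_zero.1 h2
      exact_mod_cast h5
    rw [nabs_eq, nabs_eq]
    exact Real.log_injOn_pos (av_pos Q (ε : Hˣ)) (av_pos Q' (ε : Hˣ)) h4
  · intro g
    rw [nabs_eq, hlog g, hw, torsion_eq]
  · rw [← torsion_eq]
    exact hab

end Pool.Agent.H233.ST
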