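import Pool.Agent.H509.BT.Fin2
import Pool.Agent.H509.ST.ASM
import Pool.Agent.H509.ST.DAT
import Pool.Agent.H509.ST.EUL
import Pool.Agent.H509.ST.LIN
import Pool.Agent.H509.ST.PLA
import Pool.Agent.H509.ST.REAL
import Pool.Agent.H509.ST.UNI
import Pool.Agent.H509.ST.UNR
import Pool.Agent.H509.ST.ZERO

/-!
# Project ST: the rank one abelian Stark conjecture in Tate's form for multiquadratic extensions
-/

set_option autoImplicit false
set_option linter.unusedSectionVars false

open NumberField IsDedekindDomain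

noncomputable section

namespace Pool.Agent.STk

open Pool.Agent.K3h30.RS (RubinData Fixes Conj InS Above IsFrob GHom Wedge toQ toR reg charValue act av
  unitGroup)
open Pool.Agent.N598.ST (Data IsArtin IsZeta Stark TotallySplit Over nabs Unram PrimeTo W AbRoot InU
  Place)
open Pool.Agent.H509 (Popescu)
open Pool.Agent.BT9 (Sg sc deg2 RC)

theorem st : S_ST :=
  Pool.Agent.H120.ST.asm Pool.Agent.H596.ST.eul Pool.Agent.H181.ST.spl Pool.Agent.H181.ST.cnj
    Pool.Agent.H181.ST.ins Pool.Agent.H588.ST.unr Pool.Agent.H181.ST.ovx Pool.Agent.H115.ST.zero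
    Pool.Agent.H71.ST.dat Pool.Agent.H354.ST.lin Pool.Agent.H233.ST.uni

section

variable (K H : Type) [Field K] [NumberField K] [Field H] [NumberField H] [Algebra K H]
  [IsAbelianGalois K H]

/-- the Galois group as a commutative group -/
def CG (K H : Type) [Field K] [NumberField K] [Field H] [NumberField H] [Algebra K H] : Type :=
  Gal(H/K)

instance : CommGroup (CG K H) :=
  { (inferInstance : Group Gal(H/K)) with
    mul_comm := fun a b => (IsAbelianGalois.toIsMulCommutative (K := K) (L := H)).is_comm.comm a b }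

instance : Finite (CG K H) := (inferInstance : Finite Gal(H/K))

instance : MulSemiringAction (CG K H) H := (inferInstance : MulSemiringAction Gal(H/K) H)

instance : IsGaloisGroup (CG K H) K H := (inferInstance : IsGaloisGroup Gal(H/K) K H)

/-- the identity -/
def toCG : Gal(H/K) ≃* CG K H := MulEquiv.refl Gal(H/K)

theorem toCG_smul (g : Gal(H/K)) (x : H) : toCG K H g • x = g x := rfl

end

section

variable {K H : Type} [Field K] [NumberField K] [Field H] [NumberField H] [Algebra K H]
  [IsAbelianGalois K H]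

theorem card_toRight {S : Finset (Place K)} (h : ∀ v : InfinitePlace K, Sum.inl v ∈ S) :
    Fintype.card (InfinitePlace K) + S.toRight.card = S.card := by
  classical
  rw [← Finset.card_toLeft_add_card_toRight]
  congr 1
  have : S.toLeft = Finset.univ := by
    ext v
    simp [h v]
  rw [this, Finset.card_univ]

/-- the group generated by the decomposition groups -/
def SigmaG (K H : Type) [Field K] [NumberField K] [Field H] [NumberField H] [Algebra K H]
    (S : Finset (Place K)) : Subgroup Gal(H/K) :=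
  Subgroup.closure {g : Gal(H/K) | ∃ q ∈ S, ∃ Q : Place H, Over K H Q q ∧
    ∀ x : H, nabs Q (g x) = nabs Q x}

theorem fixes_iff (Q : Place H) (g : Gal(H/K)) :
    Fixes Q (toCG K H g) ↔ ∀ x : H, nabs Q (g x) = nabs Q x := by
  rcases Q with w | P
  · exact Iff.rfl
  · exact Iff.rfl

theorem card_sg {S : Finset (Place K)} (hS : ∀ v : InfinitePlace K, Sum.inl v ∈ S)
    (D : RubinData K H (CG K H)) (hD : D.S = S.toRight) :
    Nat.card (Sg D) = Nat.card (SigmaG K H S) := by
  have h1 : (SigmaG K H S).map (toCG K H).toMonoidHom = Sg D := by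
    unfold SigmaG
    rw [MonoidHom.map_closure, Pool.Agent.BT9.sg_eq]
    congr 1
    ext γ
    constructor
    · rintro ⟨g, ⟨q, hq, Q, hQ, h⟩, rfl⟩
      refine ⟨Q, ?_, (fixes_iff Q g).2 h⟩
      rw [hD]
      exact (Pool.Agent.H181.ST.ins K H S hS Q q hQ).2 hq
    · rintro ⟨Q, h1, h2⟩
      obtain ⟨q, hq⟩ := Pool.Agent.N820.RS.exists_under (K := K) Q
      rw [hD] at h1
      exact ⟨γ, ⟨q, (Pool.Agent.H181.ST.ins K H S hS Q q hq).1 h1, Q, hq, (fixes_iff Q γ).1 h2⟩, rfl⟩
  rw [← h1]
  exact (Nat.card_congr ((SigmaG K H S).equivMapOfInjective _ (toCG K H).injective).toEquiv).symm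

/-- **The rank one abelian Stark conjecture in Tate's form**, groups of exponent two -/
theorem rank_one (h2 : ∀ g : Gal(H/K), g * g = 1) (S : Finset (Place K)) (p : Place K)
    (hD : Data K H S p) (hnt : 3 ≤ S.card ∨ ∃ q ∈ S, ¬ TotallySplit K H q)
    (h : (∃ q ∈ S, q ≠ p ∧ TotallySplit K H q) ∨
      Nat.card (SigmaG K H S) ≤ 2 ^ (S.card - 1) ∨
      (∃ W : Finset (HeightOneSpectrum (𝓞 K)), (∀ v : HeightOneSpectrum (𝓞 K),
          (2 : 𝓞 K) ∈ v.asIdeal → ¬ Unram K H v → v ∈ W) ∧
        ∑ v ∈ W, deg2 v ≤ 1 + Nat.card (RC K H))) : Stark K H S p := by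
  refine st K H (CG K H) (toCG K H) (toCG_smul K H) h2 S p hD hnt fun D hDS hDr => ?_
  rcases h with ⟨q, hq, hqp, hqs⟩ | h
  · exfalso
    obtain ⟨P, hP⟩ := Pool.Agent.H181.ST.ovx K H p
    obtain ⟨Q, hQ⟩ := Pool.Agent.H181.ST.ovx K H q
    have h1 : ∃ i, Conj (CG K H) P (D.w i) := by
      refine D.all P ?_ ((Pool.Agent.H181.ST.spl K H (CG K H) p).1 hD.split P hP)
      rw [hDS]
      exact (Pool.Agent.H181.ST.ins K H S hD.arch P p hP).2 hD.mem
    have h3 : ∃ i, Conj (CG K H) Q (D.w i) := by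
      refine D.all Q ?_ ((Pool.Agent.H181.ST.spl K H (CG K H) q).1 hqs Q hQ)
      rw [hDS]
      exact (Pool.Agent.H181.ST.ins K H S hD.arch Q q hQ).2 hq
    obtain ⟨i, hi⟩ := h1
    obtain ⟨j, hj⟩ := h3
    have hij : i = j := Fin.ext (by have := i.2; have := j.2; omega)
    subst hij
    have h4 := (Pool.Agent.H181.ST.cnj K H (CG K H) P (D.w i) p hP).2 hi
    have h5 := (Pool.Agent.H181.ST.cnj K H (CG K H) Q (D.w i) q hQ).2 hj
    exact hqp (Pool.Agent.N820.RS.over_unique h5 h4)
  · have hsc : sc D = S.card - 1 := by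
      have h3 := card_toRight hD.arch
      unfold sc
      rw [hDS, hDr]
      omega
    refine Pool.Agent.BT9.pop_bt Pool.Agent.BT9.all D h2 ?_ D subset_rfl
    rcases h with h | ⟨W, h3, h4⟩
    · rw [card_sg hD.arch D hDS, hsc]
      exact h
    · refine Pool.Agent.BT9.card_of_wild D h2 ⟨W, fun v h5 h6 => h3 v h5 fun h7 => h6 ?_, h4⟩
      exact (Pool.Agent.H588.ST.unr K H v).1 h7

end

end Pool.Agent.STk
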