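import Pool.Agent.H509.ST.Fin

/-!
# Project ST: the condition at two
-/

set_option autoImplicit false
set_option linter.unusedSectionVars false
set_option linter.deprecated false

open NumberField IsDedekindDomain

noncomputable section

namespace Pool.Agent.STk

open Pool.Agent.N598.ST (Data Stark TotallySplit Over nabs Unram Place)
open Pool.Agent.BT9 (deg2 RC)

/-- the condition at two -/
def Wild (K H : Type) [Field K] [NumberField K] [Field H] [NumberField H] [Algebra K H] : Prop :=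
  ∃ W : Finset (HeightOneSpectrum (𝓞 K)), (∀ v : HeightOneSpectrum (𝓞 K),
      (2 : 𝓞 K) ∈ v.asIdeal → ¬ Unram K H v → v ∈ W) ∧ ∑ v ∈ W, deg2 v ≤ 1 + Nat.card (RC K H)

variable {K : Type} [Field K] [NumberField K]

theorem two_finite : {v : HeightOneSpectrum (𝓞 K) | (2 : 𝓞 K) ∈ v.asIdeal}.Finite := by
  have h3 := Ideal.finite_factors (I := Ideal.span {(2 : 𝓞 K)}) (by
    rw [Ne, Ideal.zero_eq_bot, Ideal.span_singleton_eq_bot]
    exact two_ne_zero)
  refine h3.subset fun v hv => ?_
  rw [Set.mem_ofPred_eq] at hv ⊢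
  rw [Ideal.dvd_iff_le, Ideal.span_singleton_le_iff_mem]
  exact hv

theorem sum_deg_le {W : Finset (HeightOneSpectrum (𝓞 K))} (hW : ∀ v ∈ W, (2 : 𝓞 K) ∈ v.asIdeal) :
    ∑ v ∈ W, deg2 v ≤ Module.finrank ℚ K := by
  classical
  have hmax : (Ideal.span {(2 : ℤ)}).IsMaximal :=
    PrincipalIdealRing.isMaximal_of_irreducible Int.prime_two.irreducible
  have hne : (Ideal.span {(2 : ℤ)}) ≠ ⊥ := by
    rw [Ne, Ideal.span_singleton_eq_bot]
    exact two_ne_zero
  have h1 := Ideal.sum_ramification_inertia (S := 𝓞 K) ℚ K hne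
  have hinj : Function.Injective (fun v : HeightOneSpectrum (𝓞 K) => v.asIdeal) := by
    intro a b hab
    exact HeightOneSpectrum.ext hab
  rw [← h1]
  have e1 : ∑ v ∈ W, deg2 v = ∑ P ∈ W.map ⟨_, hinj⟩,
      Ideal.ramificationIdx' (Ideal.span {(2 : ℤ)}) P *
        Ideal.inertiaDeg' (Ideal.span {(2 : ℤ)}) P := by
    rw [Finset.sum_map]
    rfl
  rw [e1]
  refine Finset.sum_le_sum_of_subset ?_
  intro P hP
  rw [Finset.mem_map] at hP
  obtain ⟨v, hv, rfl⟩ := hP
  rw [IsDedekindDomain.mem_primesOverFinset_iff hne]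
  exact ⟨v.isPrime, Pool.Agent.H161.BT.liesOver v (hW v hv)⟩

theorem deg2_pos {v : HeightOneSpectrum (𝓞 K)} (hv : (2 : 𝓞 K) ∈ v.asIdeal) : 1 ≤ deg2 v := by
  have h1 := Pool.Agent.H161.BT.n2 K v hv
  have hne : (Ideal.span {(2 : ℤ)}) ≠ ⊥ := by
    rw [Ne, Ideal.span_singleton_eq_bot]
    exact two_ne_zero
  have hl := Pool.Agent.H161.BT.liesOver v hv
  have h2 : Pool.Agent.BT9.e2 v ≠ 0 := by
    rw [Pool.Agent.H161.BT.e2_eq]
    exact Ideal.IsDedekindDomain.ramificationIdx'_ne_zero_of_liesOver v.asIdeal hne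
  rcases Nat.eq_zero_or_pos (deg2 v) with h | h
  · exfalso
    rw [h, pow_zero] at h1
    have h3 : Ideal.absNorm v.asIdeal = 1 := (Nat.pow_eq_one.1 h1).resolve_right h2
    exact v.isPrime.ne_top (Ideal.absNorm_eq_one_iff.1 h3)
  · exact h

variable {H : Type} [Field H] [NumberField H] [Algebra K H]

/-- the condition from the degree -/
theorem wild_of_deg (h : Module.finrank ℚ K ≤ 1 + Nat.card (RC K H)) : Wild K H := by
  refine ⟨(two_finite (K := K)).toFinset, fun v hv _ => (Set.Finite.mem_toFinset _).2 hv, ?_⟩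
  exact (sum_deg_le fun v hv => (Set.Finite.mem_toFinset two_finite).1 hv).trans h

open Classical in
/-- the condition from the degree and an unramified prime ideal above two -/
theorem wild_of_prime (h : Module.finrank ℚ K ≤ 2 + Nat.card (RC K H))
    (v : HeightOneSpectrum (𝓞 K)) (hv : (2 : 𝓞 K) ∈ v.asIdeal) (hu : Unram K H v) : Wild K H := by
  refine ⟨(two_finite (K := K)).toFinset.erase v, fun w hw hw' => ?_, ?_⟩
  · rw [Finset.mem_erase]
    refine ⟨?_, (Set.Finite.mem_toFinset _).2 hw⟩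
    rintro rfl
    exact hw' hu
  · have h1 : ∑ w ∈ (two_finite (K := K)).toFinset, deg2 w ≤ Module.finrank ℚ K :=
      sum_deg_le fun v hv => (Set.Finite.mem_toFinset two_finite).1 hv
    rw [← Finset.add_sum_erase _ deg2 ((Set.Finite.mem_toFinset (two_finite (K := K))).2 hv)] at h1
    have h2 := deg2_pos hv
    omega

/-- the condition for totally real `K` and totally complex `H` -/
theorem wild_of_real (h1 : ∀ v : InfinitePlace K, v.IsReal) (h2 : ∀ w : InfinitePlace H, w.IsComplex) :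
    Wild K H := by
  refine wild_of_deg ?_
  have htr : IsTotallyReal K := ⟨h1⟩
  have h3 : Module.finrank ℚ K = Nat.card (InfinitePlace K) := by
    rw [IsTotallyReal.finrank, Nat.card_eq_fintype_card,
      InfinitePlace.card_eq_nrRealPlaces_add_nrComplexPlaces]
    simp
  rw [h3]
  refine le_trans (le_of_eq ?_) (Nat.le_add_left _ _)
  unfold RC
  exact Nat.card_congr (Equiv.subtypeUnivEquiv fun v => ⟨h1 v, fun w _ => h2 w⟩).symm

end Pool.Agent.STk
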