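import Pool.Agent.H509.ST.Deg

/-!
# Project ST: the main theorem
-/

set_option autoImplicit false
set_option linter.unusedSectionVars false

open NumberField IsDedekindDomain

noncomputable section

namespace Pool.Agent.STk

open Pool.Agent.N598.ST (Data Stark StarkMul TotallySplit Over nabs Unram Place IsArtin IsZeta AbRoot
  stark_iff)
open Pool.Agent.N820.RS (PMul CMul RMul UMul pmul_iff cmul_iff rmul_iff split_complex split_real
  IsModulus exists_complex)
open Pool.Agent.BT9 (deg2 RC)

variable {K H : Type} [Field K] [NumberField K] [Field H] [NumberField H] [Algebra K H]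

theorem split_or [IsGalois K H] (v : InfinitePlace K) : TotallySplit K H (Sum.inl v) ∨
    (v.IsReal ∧ ∀ w : InfinitePlace H, w.comap (algebraMap K H) = v → w.IsComplex) := by
  by_cases hv : v.IsComplex
  · exact Or.inl (split_complex v hv)
  rw [← InfinitePlace.not_isReal_iff_isComplex, not_not] at hv
  by_cases h : ∀ w : InfinitePlace H, w.comap (algebraMap K H) = v → w.IsComplex
  · exact Or.inr ⟨hv, h⟩
  push Not at h
  obtain ⟨w0, h0, h1⟩ := h
  rw [← InfinitePlace.not_isReal_iff_isComplex, not_not] at h1
  refine Or.inl (split_real fun w hw => ?_)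
  obtain ⟨σ, rfl⟩ := InfinitePlace.exists_smul_eq_of_comap_eq (k := K) (h0.trans hw.symm)
  rw [InfinitePlace.isReal_smul_iff]
  exact h1

/-- **The rank one abelian Stark conjecture in Tate's form** for groups of exponent two -/
theorem stark_exp2 [IsAbelianGalois K H] (h2 : ∀ g : Gal(H/K), g * g = 1) (S : Finset (Place K))
    (p : Place K) (hD : Data K H S p) (hnt : 3 ≤ S.card ∨ ∃ q ∈ S, ¬ TotallySplit K H q)
    (h : InfinitePlace.nrComplexPlaces K ≠ 1 ∨
      (∃ v : HeightOneSpectrum (𝓞 K), (2 : 𝓞 K) ∈ v.asIdeal ∧ Unram K H v) ∨
      Nat.card (SigmaG K H S) ≤ 2 ^ (S.card - 1)) : Stark K H S p := by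
  classical
  refine rank_one h2 S p hD hnt ?_
  by_cases hq : ∃ q ∈ S, q ≠ p ∧ TotallySplit K H q
  · exact Or.inl hq
  push Not at hq
  by_cases hc1 : InfinitePlace.nrComplexPlaces K = 1
  swap
  · -- totally real
    have h := hc1
    refine Or.inr (Or.inr (wild_of_deg ?_))
    have hc : InfinitePlace.nrComplexPlaces K = 0 := by
      by_contra hc
      have h3 : 1 < Fintype.card {v : InfinitePlace K // v.IsComplex} := by
        unfold InfinitePlace.nrComplexPlaces at h hc
        omega
      obtain ⟨a, b, hab⟩ := Fintype.one_lt_card_iff.1 h3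
      have ha := hq (Sum.inl a.1) (hD.arch _)
      have hb := hq (Sum.inl b.1) (hD.arch _)
      have h4 : Sum.inl a.1 = p := by
        by_contra h5
        exact ha h5 (split_complex _ a.2)
      have h5 : Sum.inl b.1 = p := by
        by_contra h5
        exact hb h5 (split_complex _ b.2)
      exact hab (Subtype.ext (Sum.inl_injective (h4.trans h5.symm)))
    have hreal : ∀ v : InfinitePlace K, v.IsReal := by
      intro v
      by_contra hv
      rw [InfinitePlace.not_isReal_iff_isComplex] at hv
      unfold InfinitePlace.nrComplexPlaces at hc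
      exact (Fintype.card_eq_zero_iff.1 hc).false ⟨v, hv⟩
    have htr : IsTotallyReal K := ⟨hreal⟩
    have h3 : Module.finrank ℚ K = Nat.card (InfinitePlace K) := by
      rw [IsTotallyReal.finrank, Nat.card_eq_fintype_card,
        InfinitePlace.card_eq_nrRealPlaces_add_nrComplexPlaces, hc, add_zero]
    have h4 : ∀ v : InfinitePlace K, Sum.inl v ≠ p →
        v.IsReal ∧ ∀ w : InfinitePlace H, w.comap (algebraMap K H) = v → w.IsComplex :=
      fun v hv => (split_or v).resolve_left (hq _ (hD.arch v) hv)
    have hinj : Function.Injective (fun v : InfinitePlace K =>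
        if hv : Sum.inl v = p then (none : Option (RC K H)) else some ⟨v, h4 v hv⟩) := by
      intro a b hab
      by_cases ha : (Sum.inl a : Place K) = p <;> by_cases hb : (Sum.inl b : Place K) = p
      · exact Sum.inl_injective (ha.trans hb.symm)
      · simp [ha, hb] at hab
      · simp [ha, hb] at hab
      · simp only [ha, hb, dite_false] at hab
        exact congrArg (fun x : RC K H => x.1) (Option.some_injective _ hab)
    have hfin : Finite (RC K H) := by unfold RC; infer_instance
    have h5 := Nat.card_le_card_of_injective _ hinj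
    rw [Finite.card_option] at h5
    rw [h3]
    omega
  · rcases h with h | ⟨v, hv, hu⟩ | h
    · exact absurd hc1 h
    · have hc := hc1
      refine Or.inr (Or.inr (wild_of_prime ?_ v hv hu))
      obtain ⟨v₀, h0, h1⟩ := exists_complex hc
      have hp : Sum.inl v₀ = p := by
        by_contra h5
        exact hq _ (hD.arch _) h5 (split_complex _ h0)
      have h4 : ∀ v : InfinitePlace K, v.IsReal →
          v.IsReal ∧ ∀ w : InfinitePlace H, w.comap (algebraMap K H) = v → w.IsComplex := by
        intro v hv
        refine (split_or v).resolve_left (hq _ (hD.arch v) ?_)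
        intro h5
        have h6 : v = v₀ := Sum.inl_injective (h5.trans hp.symm)
        rw [h6] at hv
        exact (InfinitePlace.not_isReal_iff_isComplex.2 h0) hv
      have hfin : Finite (RC K H) := by unfold RC; infer_instance
      have h5 : InfinitePlace.nrRealPlaces K ≤ Nat.card (RC K H) := by
        unfold InfinitePlace.nrRealPlaces
        rw [← Nat.card_eq_fintype_card]
        refine Nat.card_le_card_of_injective
          (fun v : {v : InfinitePlace K // v.IsReal} => (⟨v.1, h4 v.1 v.2⟩ : RC K H)) ?_
        intro a b hab
        exact Subtype.ext (congrArg (fun x : RC K H => x.1) hab)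
      have h6 := InfinitePlace.card_add_two_mul_card_eq_rank K
      rw [hc] at h6
      omega
    · exact Or.inr (Or.inl h)

end Pool.Agent.STk
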