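import Pool.Agent.H509.ST.Pages
import Pool.Agent.H896.SG.Max

/-!
# Project ST: complex split places, all fields but the maximal ones
-/

set_option autoImplicit false
set_option linter.unusedSectionVars false

open NumberField IsDedekindDomain

noncomputable section

namespace Pool.Agent.STk

open Pool.Agent.N598.ST (Data Stark StarkMul TotallySplit Over nabs Unram Place IsArtin IsZeta AbRoot
  stark_iff W)
open Pool.Agent.N820.RS (PMul CMul RMul UMul pmul_iff cmul_iff rmul_iff split_complex split_real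
  IsModulus exists_complex OverComplex)
open Pool.Agent.H896.SG (NotMaximal stark_d)

variable {K H : Type} [Field K] [NumberField K] [Field H] [NumberField H] [Algebra K H]
  [IsAbelianGalois K H]

/-- complex split place -/
theorem complex_page_d (h2 : ∀ g : Gal(H/K), g * g = 1) (S : Finset (Place K)) (h3 : 3 ≤ S.card)
    (harch : ∀ v : InfinitePlace K, Sum.inl v ∈ S)
    (hram : ∀ q : HeightOneSpectrum (𝓞 K), Sum.inr q ∉ S → Unram K H q)
    (h : InfinitePlace.nrComplexPlaces K = 1)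
    (h' : (∃ v : HeightOneSpectrum (𝓞 K), (2 : 𝓞 K) ∈ v.asIdeal ∧ Unram K H v) ∨
      Nat.card (SigmaG K H S) ≤ 2 ^ (S.card - 1) ∨ NotMaximal K H) (φ : H →+* ℂ)
    (hφ : (InfinitePlace.mk (φ.comp (algebraMap K H))).IsComplex)
    (a : Ideal (𝓞 K) → Gal(H/K)) (ha : IsArtin S a)
    (ζ : Gal(H/K) → ℂ → ℂ) (hζ : ∀ ρ, IsZeta S a ρ (ζ ρ)) :
    ∃ u : (𝓞 H)ˣ,
      (∀ ρ : Gal(H/K), deriv (ζ ρ) 0 =
        -(1 / W H) * (Real.log (‖φ (ρ ((u : 𝓞 H) : H))‖ ^ 2) : ℝ)) ∧
      (∀ τ : H →+* ℂ, (InfinitePlace.mk (τ.comp (algebraMap K H))).IsReal →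
        ‖τ ((u : 𝓞 H) : H)‖ = 1) ∧ AbRoot K (W H) ((u : 𝓞 H) : H) := by
  obtain ⟨v₀, h0, h1⟩ := exists_complex h
  have hv₀ : InfinitePlace.mk (φ.comp (algebraMap K H)) = v₀ := h1 _ hφ
  have hD : Data K H S (Sum.inl v₀) :=
    ⟨by omega, harch, hram, harch _, split_complex v₀ h0⟩
  have hs := stark_d h2 S (Sum.inl v₀) hD (Or.inl h3) (Or.inr h')
  rw [stark_iff, ← pmul_iff h3 hD.mem, ← cmul_iff h0 h1] at hs
  have hcm : ((InfinitePlace.mk φ).comap (algebraMap K H)).IsComplex := by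
    rw [InfinitePlace.comap_mk]
    exact hφ
  obtain ⟨u, hu0, hout, hlog, hab⟩ := hs (InfinitePlace.mk φ) hcm a ha ζ hζ
  obtain ⟨ε, hε⟩ := Pool.Agent.H539.ST.exists_unit hu0 fun P => hout (.inr P) (by
    rintro ⟨v', hv', -⟩
    exact absurd hv' (by simp))
  have hmult : (InfinitePlace.mk φ).mult = 2 := by
    unfold InfinitePlace.mult
    rw [if_neg]
    intro hr
    exact (InfinitePlace.not_isReal_iff_isComplex.2 hcm) (hr.comap _)
  have hW : (W H : ℂ) ≠ 0 := by
    rw [← Pool.Agent.H233.ST.torsion_eq]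
    exact_mod_cast (Units.torsionOrder_ne_zero H)
  refine ⟨ε, fun ρ => ?_, fun τ hτ => ?_, ?_⟩
  · have h4 := hlog ρ
    have h5 : nabs (Sum.inl (InfinitePlace.mk φ)) (ρ u) = ‖φ (ρ u)‖ ^ 2 := by
      change (InfinitePlace.mk φ) (ρ u) ^ (InfinitePlace.mk φ).mult = _
      rw [hmult, InfinitePlace.apply]
    rw [h5] at h4
    rw [hε, h4]
    push_cast
    field_simp
  · rw [hε]
    have h4 := hout (.inl (InfinitePlace.mk τ)) (by
      rintro ⟨v', hv', h5⟩
      obtain rfl : InfinitePlace.mk τ = v' := Sum.inl_injective hv'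
      rw [InfinitePlace.comap_mk] at h5
      exact (InfinitePlace.not_isReal_iff_isComplex.2 h5) hτ)
    have h5 : (InfinitePlace.mk τ) u ^ (InfinitePlace.mk τ).mult = 1 := h4
    have h6 := (pow_eq_one_iff_of_nonneg (apply_nonneg _ _) (InfinitePlace.mult_ne_zero)).1 h5
    rwa [InfinitePlace.apply] at h6
  · rw [hε]
    exact hab

end Pool.Agent.STk
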