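import Pool.Agent.H509.PopDef
import Pool.Graph.R_pool_sql_team_seeded_63374d34.N820.RS.Rq
import Pool.Graph.R_pool_sql_team_seeded_63374d34.N820.RS.One
import Pool.Graph.R_pool_sql_team_seeded_63374d34.N820.RS.Nat

/-!
# Project ST: from Popescu's conjecture (rank one) to the conjecture of Stark in Tate's form

`K` is the base field, `H / K` abelian, `G` a commutative group with an isomorphism
`e : Gal(H/K) ≃* G`, `e g • x = g x`.  `Pool.Agent.K3h30.RS`: `RubinData`, `Fixes`, `Conj`, `InS`, ...;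
`Pool.Agent.N598.ST`: `Data`, `IsArtin`, `IsZeta`, `Stark`, `TotallySplit`, `Over`, `nabs`, ...
(`nabs Q x` and `av Q x` are the same by definition; both `Place` are the same abbreviation).
-/

set_option autoImplicit false
set_option linter.unusedSectionVars false

open NumberField IsDedekindDomain Filter Topology

noncomputable section

namespace Pool.Agent.STk

open Pool.Agent.K3h30.RS (RubinData Fixes Conj InS Above IsFrob GHom Wedge toQ toR reg charValue act av
  unitGroup)
open Pool.Agent.N598.ST (Data IsArtin IsZeta Stark TotallySplit Over nabs Unram PrimeTo W AbRoot InU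
  Place)
open Pool.Agent.H509 (Popescu)

/-! ## The dictionary for the places -/

/-- OVX. There is a place over each place. (`InfinitePlace.comap_surjective`,
`Pool.Agent.K3h25.RS.t_OVER`.) -/
def S_OVX : Prop := ∀ (K H : Type) [Field K] [NumberField K] [Field H] [NumberField H] [Algebra K H]
  [IsGalois K H] (q : Place K), ∃ Q : Place H, Over K H Q q

/-- SPL. Totally split places. -/
def S_SPL : Prop := ∀ (K H G : Type) [Field K] [NumberField K] [Field H] [NumberField H] [Algebra K H]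
  [CommGroup G] [Finite G] [MulSemiringAction G H] [IsGaloisGroup G K H] (q : Place K),
  TotallySplit K H q ↔ ∀ Q : Place H, Over K H Q q → ∀ γ : G, Fixes Q γ → γ = 1

/-- CNJ. Conjugate places are the places over the same place. -/
def S_CNJ : Prop := ∀ (K H G : Type) [Field K] [NumberField K] [Field H] [NumberField H] [Algebra K H]
  [CommGroup G] [Finite G] [MulSemiringAction G H] [IsGaloisGroup G K H] (Q Q' : Place H) (q : Place K),
  Over K H Q q → (Over K H Q' q ↔ Conj G Q Q')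

/-- INS. Places over `S`; `S.toRight` are the finite places in `S`. -/
def S_INS : Prop := ∀ (K H : Type) [Field K] [NumberField K] [Field H] [NumberField H] [Algebra K H]
  (S : Finset (Place K)), (∀ v : InfinitePlace K, Sum.inl v ∈ S) → ∀ (Q : Place H) (q : Place K),
  Over K H Q q → (InS (S.toRight : Set (HeightOneSpectrum (𝓞 K))) Q ↔ q ∈ S)

/-- UNR. Unramified prime ideals. -/
def S_UNR : Prop := ∀ (K H : Type) [Field K] [NumberField K] [Field H] [NumberField H] [Algebra K H]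
  [IsGalois K H] (v : HeightOneSpectrum (𝓞 K)),
  Unram K H v ↔ Squarefree (v.asIdeal.map (algebraMap (𝓞 K) (𝓞 H)))

/-! ## The L-functions -/

/-- EUL. The Euler product.
Proof: for `1 < re s` the sum over all `𝔞` prime to `S` of `χ (a 𝔞) N 𝔞 ^ (-s)` is the finite sum of the
`χ (e g) ζ_S (g, s)` (`IsZeta.sum`); it is absolutely convergent and completely multiplicative
(`IsArtin.mul`, `IsArtin.one`).  See the Euler products in the library (`Pool.Agent.K3h..`, Dedekind zeta
functions: `S_ZPROD`; partial zeta functions, `SmoothedSumsOverIdeals`). -/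
def S_EUL : Prop := ∀ (K H G : Type) [Field K] [NumberField K] [Field H] [NumberField H] [Algebra K H]
  [CommGroup G] [Finite G] [MulSemiringAction G H] [IsGaloisGroup G K H] (e : Gal(H/K) ≃* G)
  (S : Finset (Place K)) (a : Ideal (𝓞 K) → Gal(H/K)), IsArtin S a →
  ∀ Z : Gal(H/K) → ℂ → ℂ, (∀ g, IsZeta S a g (Z g)) → ∀ (χ : G →* ℂˣ) (s : ℂ), 1 < s.re →
  HasProd (fun v : {v : HeightOneSpectrum (𝓞 K) // v ∉ S.toRight} =>
    (1 - (χ (e (a (v : HeightOneSpectrum (𝓞 K)).asIdeal)) : ℂ) *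
      (Ideal.absNorm (v : HeightOneSpectrum (𝓞 K)).asIdeal : ℂ) ^ (-s))⁻¹)
    (∑ g : Gal(H/K), (χ (e g) : ℂ) * Z g s)

/-- ZERO. If two places of `S` are totally split and `S` has at least three elements, the derivatives
of the partial zeta functions at `s = 0` are zero.
Proof: `L s = ∑ g, χ (e g) Z g s` is holomorphic for `s ≠ 1` with the Euler product `S_EUL`.  For `χ = 1` use
the library theorem for `Pool.Agent.K3h56.E2.S_LIM1` (order of vanishing at least `#S - 1 ≥ 2`), for `χ ≠ 1`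
(the quadratic field of `χ`: `S_DICT`, `S_FROB`) `Pool.Agent.K3h56.E2.S_LIM`, with the number of the places
of `S` which split in the quadratic field (at least the two totally split ones; `S_COUNT` for the
infinite ones).  So `deriv L 0 = 0` for all `χ`, and the `deriv (Z g) 0` are zero by the orthogonality
of the characters.  These statements are proved: `Pool.Agent.H509.Z0.t_ZETA0X` (`H509/Zeta0.lean`, the
precise form `S_ZETA0X` of `S_ZETA0`), `t_LIMX`, `t_LIM1X` (`K3h11/E2/LimX.lean`, `K3h66/E2/LimX.lean`), `t_ZPROD`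
(`K3h93/E2/ZProd.lean`), `t_DICT` (`K3h41/E2/Dict.lean`), `t_FROB`, `t_FINW` (`K3h72/E2`), `t_INFW`, `t_COUNT`
(`K3h50/E2/Inf.lean`), `t_LOC`; for their use see `Pool/Agent/H509/Chi3.lean` and `Chi4.lean`. -/
def S_ZERO : Prop := S_EUL → S_SPL → S_UNR → ∀ (K H G : Type) [Field K] [NumberField K] [Field H]
  [NumberField H] [Algebra K H] [CommGroup G] [Finite G] [MulSemiringAction G H]
  [IsGaloisGroup G K H] (e : Gal(H/K) ≃* G), (∀ (g : Gal(H/K)) (x : H), e g • x = g x) →
  (∀ g : G, g * g = 1) → ∀ S : Finset (Place K), (∀ v : InfinitePlace K, Sum.inl v ∈ S) →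
  (∀ v : HeightOneSpectrum (𝓞 K), Sum.inr v ∉ S → Unram K H v) → 3 ≤ S.card →
  ∀ p ∈ S, ∀ q ∈ S, p ≠ q → TotallySplit K H p → TotallySplit K H q →
  ∀ a : Ideal (𝓞 K) → Gal(H/K), IsArtin S a → ∀ Z : Gal(H/K) → ℂ → ℂ,
  (∀ g, IsZeta S a g (Z g)) → ∀ g, deriv (Z g) 0 = 0

/-- DAT. The data of Popescu's conjecture, if `p` is the only totally split place of `S` and `P` is
over `p`.
Proof: `S := S.toRight`, `r := 1`, `w _ := P`, `σ v := e (a v.asIdeal)`, `L χ s := ∑ g, χ (e g) Z g s`. -/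
def S_DAT : Prop := S_EUL → S_SPL → S_CNJ → S_INS → S_UNR → S_OVX → ∀ (K H G : Type) [Field K]
  [NumberField K] [Field H] [NumberField H] [Algebra K H] [CommGroup G] [Finite G]
  [MulSemiringAction G H] [IsGaloisGroup G K H] (e : Gal(H/K) ≃* G),
  (∀ (g : Gal(H/K)) (x : H), e g • x = g x) → ∀ (S : Finset (Place K)) (p : Place K),
  Data K H S p → (∀ q ∈ S, q ≠ p → ¬ TotallySplit K H q) →
  ∀ a : Ideal (𝓞 K) → Gal(H/K), IsArtin S a → ∀ Z : Gal(H/K) → ℂ → ℂ,
  (∀ g, IsZeta S a g (Z g)) → ∀ P : Place H, Over K H P p →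
  ∃ D : RubinData K H G, D.S = S.toRight ∧ D.r = 1 ∧ (∀ i, D.w i = P) ∧
    ∀ (χ : G →* ℂˣ) (s : ℂ), D.L χ s = ∑ g : Gal(H/K), (χ (e g) : ℂ) * Z g s

/-- LIN. An identity for all homomorphisms `U → ℤ[G]` implies the one for the logarithms.
Proof: for a homomorphism `h : U → ℤ` the map `x ↦ ∑ γ, h (γ⁻¹ x) γ` is in `GHom G U`.  If `N c_k` is in
`ℤ[G]`, `N > 0`, let `y = ∏_k (N c_k) x_k` in `U` (group ring action), then `h (y) = h (ε ^ N)` for all `h`,
so `y ε^(-N)` is in the torsion of the finitely generated group `U` and its absolute values are `1`. -/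
def S_LIN : Prop := ∀ (K H G : Type) [Field K] [NumberField K] [Field H] [NumberField H] [Algebra K H]
  [CommGroup G] [Finite G] [MulSemiringAction G H] [IsGaloisGroup G K H]
  (S T : Finset (HeightOneSpectrum (𝓞 K))) (n : ℕ) (c : Fin n → MonoidAlgebra ℚ G)
  (x : Fin n → unitGroup (H := H) (S : Set (HeightOneSpectrum (𝓞 K))) (T : Set (HeightOneSpectrum (𝓞 K))))
  (ε : unitGroup (H := H) (S : Set (HeightOneSpectrum (𝓞 K))) (T : Set (HeightOneSpectrum (𝓞 K)))),
  (∀ f : GHom G (unitGroup (H := H) (S : Set (HeightOneSpectrum (𝓞 K)))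
      (T : Set (HeightOneSpectrum (𝓞 K)))),
    ∑ k, c k * toQ (f.f (Additive.ofMul (x k))) = toQ (f.f (Additive.ofMul ε))) →
  ∀ w : Place H, reg G w (ε : Hˣ) = ∑ k, toR (c k) * reg G w (x k : Hˣ)

/-- UNI. The element from Popescu's conjecture has the right absolute values.
Proof.  `r = 1`: `Popescu D` with `j = 0`, any `φ`: `ε` in `U_{S,∅}` with `W u.value (fun _ => f) = f (ε)` for all
`f`; by `S_LIN`, `reg w ε = W ∑ toR (c_k) reg w (x_k)` for all places `w`.
(1) `w = P`: by `IsEvaluator` the value of `χ` at `- W⁻¹ reg P ε` is the limit of `s⁻¹ L(χ⁻¹, s)`, which is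
`deriv (L χ⁻¹) 0` (`D.L χ⁻¹` is differentiable at `0`; the limit exists, so `L χ⁻¹ 0 = 0`).  With
`L χ s = ∑ χ (e g) Z g s`: `∑_γ log |γ⁻¹ ε|_P χ (γ) = - W ∑_g χ (e g)⁻¹ Z_g' (0)` for all `χ`, so
`log |g ε|_P = - W Z_g' (0)` by orthogonality.
(2) `InU S p ε`: `out` since `ε` is in `U_{S,∅}`.  For `q ∈ S`, `q ≠ p`, `Q` over `q`: the function
`γ ↦ log |γ⁻¹ ε|_Q` is invariant under the decomposition group of `Q`, so its `χ`-coefficient is zero if
`χ` is not trivial on it, and by `InER` (`cv` of the `c_k`) it is zero if `χ` is not active; an active `χ`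
is not trivial on this decomposition group, or `χ = 1` and `#S = 2`.  So `|γ ε|_Q = 1` if `#S ≥ 3` and
`|γ ε|_Q = |ε|_Q` if `#S = 2`.
(3) `torsionOrder H = W H`: `W H` is the `Nat.card` of the torsion of `Hˣ` (library: `Pool.Agent.H509`,
`torsionOrder`). -/
def S_UNI : Prop := S_LIN → S_SPL → S_CNJ → S_INS → S_OVX → ∀ (K H G : Type) [Field K]
  [NumberField K] [Field H] [NumberField H] [Algebra K H] [CommGroup G] [Finite G]
  [MulSemiringAction G H] [IsGaloisGroup G K H] (e : Gal(H/K) ≃* G),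
  (∀ (g : Gal(H/K)) (x : H), e g • x = g x) → ∀ (S : Finset (Place K)) (p : Place K),
  Data K H S p → ∀ Z : Gal(H/K) → ℂ → ℂ, (∀ g, DifferentiableOn ℂ (Z g) {1}ᶜ) →
  ∀ P : Place H, Over K H P p → ∀ D : RubinData K H G, D.S = S.toRight → D.r = 1 → (∀ i, D.w i = P) →
  (∀ (χ : G →* ℂˣ) (s : ℂ), D.L χ s = ∑ g : Gal(H/K), (χ (e g) : ℂ) * Z g s) → Popescu D →
  ∃ ε : H, InU S p ε ∧
        (∀ g : Gal(H/K), (Real.log (nabs P (g ε)) : ℂ) = -(W H * deriv (Z g) 0)) ∧
        AbRoot K (W H) ε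

/-- The theorem of project ST. -/
def S_ST : Prop := ∀ (K H G : Type) [Field K] [NumberField K] [Field H] [NumberField H] [Algebra K H]
  [CommGroup G] [Finite G] [MulSemiringAction G H] [IsGaloisGroup G K H] (e : Gal(H/K) ≃* G),
  (∀ (g : Gal(H/K)) (x : H), e g • x = g x) → (∀ g : G, g * g = 1) →
  ∀ (S : Finset (Place K)) (p : Place K), Data K H S p →
  (3 ≤ S.card ∨ ∃ q ∈ S, ¬ TotallySplit K H q) →
  (∀ D : RubinData K H G, D.S = S.toRight → D.r = 1 → Popescu D) → Stark K H S p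

/-! ## Real split places -/

/-- REAL. The form with units and signs.
Proof.  `RMul K H 1 S v₁` for the place `v` of `σ`: `u` with `|u|_w = 1` at all places not above `v₁`,
`log |ρ u|_v = - 2 ζ' (ρ, 0)`, and `AbRoot K 2 u`: an abelian extension `M` of `K`, `z ∈ M`, `z ^ 2 = u`.
`u` is a unit of the ring of integers (all finite absolute values are one).  The signs of `σ (ρ u)` are
the same for all `ρ`: `M / K` is Galois, so all the places of `M` above `v₁` are real or all are complex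
(`InfinitePlace.isReal_..` for Galois extensions), and the places above `σ ρ` are real iff
`σ (ρ u) > 0` (as `u = z²`, `M = H (z)`).  So `ε = ± u` has `σ (ρ ε) > 0` for all `ρ`, so
`σ (ρ ε) = exp (- 2 ζ' (ρ, 0))`.  `AbRoot K 2 (- u)`: the roots of `-1` and of `u` exist in abelian
extensions (`Pool.Agent.N598.ST`: `AbOm`, `abOm_of_abRoot`, `AbOm.abRoot`, `.mul`, `.zpow`; see
`Pool/Agent/H509/PopDef.lean` for their use; `AbRoot K 2 (-1)`: `z = i`). -/
def S_REAL : Prop := ∀ (K H : Type) [Field K] [NumberField K] [Field H] [NumberField H] [Algebra K H]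
  [IsAbelianGalois K H] (S : Finset (Place K)) (s₁ : K →+* ℝ) (v₁ : InfinitePlace K),
  v₁ = InfinitePlace.mk (Complex.ofRealHom.comp s₁) → Pool.Agent.N820.RS.RMul K H 1 S v₁ →
  ∀ σ : H →+* ℝ, σ.comp (algebraMap K H) = s₁ →
    ∀ a : Ideal (𝓞 K) → Gal(H/K), IsArtin S a →
      ∀ ζ : Gal(H/K) → ℂ → ℂ, (∀ ρ, IsZeta S a ρ (ζ ρ)) →
        ∃ ε : (𝓞 H)ˣ,
          (∀ ρ : Gal(H/K), ((σ (ρ ((ε : 𝓞 H) : H)) : ℝ) : ℂ) =
            Complex.exp (-(2 * deriv (ζ ρ) 0))) ∧
          (∀ τ : H →+* ℂ, τ.comp (algebraMap K H) ≠ Complex.ofRealHom.comp s₁ →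
            ‖τ ((ε : 𝓞 H) : H)‖ = 1) ∧ AbRoot K 2 ((ε : 𝓞 H) : H)

end Pool.Agent.STk
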