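import Pool.Agent.H509.ST.Stm

/-!
# Project ST: the case `#S = 2`, both places totally split
-/

set_option autoImplicit false

open NumberField IsDedekindDomain

noncomputable section

namespace Pool.Agent.STk

open Pool.Agent.N598.ST (Data IsArtin IsZeta Stark TotallySplit Over nabs Unram PrimeTo W AbRoot InU
  Place)

/-- TWO. `S = {p, q}`, both places totally split in `H` (so `H / K` is unramified, and all places of `S`
split): the classical case (Tate), here only for groups of exponent two.
Proof.  Let `n = #G`, `w = torsionOrder K`, `w ∣ W H`.  For `χ ≠ 1` the derivative at `0` of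
`∑ g, χ (e g) Z g s` is zero (two places of `S` split in the quadratic field of `χ`; the proof of
`Pool.Agent.H115.ST.zero`, file `Pool/Agent/H509/ST/ZERO.lean`, does not use `3 ≤ #S` for `χ ≠ 1`), so
`Z_g' (0) = L' (0) / n` for all `g`, `L = ∑ Z g` (`χ = 1`), and by `t_LIM1X` (exact form of the leading
term, `K3h11/E2/LimX.lean`, `K3h66/E2/LimX.lean`, with `Pool.Agent.H509.Z0.t_ZETA0X`)
`|L' (0)| w = h R ∏_{v ∈ S finite} log N v`, `h` the class number of `K`.
(i) `p, q` archimedean, no prime ideal in `S`: `K` has unit rank one, `R = |log |η|_p|` for a fundamental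
unit `η`.  `n ∣ h` (the Artin map of the unramified extension `H / K` is onto, trivial on principal
ideals).  `ε = η ^ (± (W / w) (h / n))`.
(ii) `{p, q} = {∞, v}`, one archimedean place, `v` a prime ideal: the units of `K` are the roots of unity,
`R = 1`.  Let `o` be the order of `v` in the class group, `v ^ o = (η)`.  `n ∣ h / o` (`v` splits completely, so
the Artin map is trivial on the class of `v`).  `ε = η ^ (± (W / w) (h / (o n)))`.
In both cases `ε ∈ K`, so `InU` (`single`: the values are the same at all places above the other place of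
`S`; `out`).  `AbRoot K (W) ε`: let `z` be a root of `z ^ w = η` (in an algebraic closure of `H`), `M = H (z)`;
`K (z) / K` is abelian since `K` contains the roots of unity of order `w`, so `M / K` is abelian, and
`z ^ (k)`, `k = ± (h / n)` or `± (h / (o n))`, satisfies `(z ^ k) ^ W = ε`.  (`Pool.Agent.N598.ST`: `AbOm`,
`AbOm.abRoot`; `Pool.Agent.H509`: `commField`; compare `abOm_neg_one` in `Pool/Agent/H509/ST/REAL.lean`.)
For `n ∣ h`: library theorems `Pool.Agent.H509.Rec.relIndex_dvd_index`, `recA`, `recB`
(`Pool/Agent/H509/Rec1.lean`, `Rec2.lean`), or the reciprocity law `S_RECD` (`Pool/Agent/H509/BT/RECD.lean`)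
and Chebotarev (`Pool.Agent.H509.exists_frob`). -/
def S_TWO : Prop := ∀ (K H G : Type) [Field K] [NumberField K] [Field H]
  [NumberField H] [Algebra K H] [CommGroup G] [Finite G] [MulSemiringAction G H]
  [IsGaloisGroup G K H] (e : Gal(H/K) ≃* G), (∀ (g : Gal(H/K)) (x : H), e g • x = g x) →
  (∀ g : G, g * g = 1) → ∀ (S : Finset (Place K)) (p : Place K), Data K H S p → S.card = 2 →
  (∀ q ∈ S, TotallySplit K H q) → Stark K H S p

end Pool.Agent.STk
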