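import Pool.Agent.H509.ST.Stm2
import Pool.Agent.H509.ST.ZERO
import Pool.Agent.H509.ST.REAL
import Pool.Agent.H509.ST.UNI
import Pool.Agent.H509.ST.PLA
import Pool.Agent.H509.ST.UNR
import Pool.Agent.H509.ST.EUL
import Pool.Agent.H509.Rec3
import Pool.Agent.H509.Ab2

/-!
# Project ST (helper509, MP_dd9835_nt), brick TWO (helper79)

The rank one Stark conjecture for `S = {p, q}`, both places totally split.
-/

set_option autoImplicit false
set_option linter.unusedSectionVars false
set_option linter.style.haveILetI false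

open NumberField IsDedekindDomain Filter Topology

noncomputable section

namespace Pool.Agent.H79.ST

open Pool.Agent.N598.ST (Data IsArtin IsZeta Stark TotallySplit Over nabs Unram PrimeTo W AbRoot InU
  AbOm Place comm_of_abelian)
open Pool.Agent.H509 (commField mem_commField commField_abelian normal_closure abOm_of_abRoot
  exists_zeta)

/-- the base of `toNNReal` -/
theorem toNN_congr {e e' : NNReal} (he : e ≠ 0) (he' : e' ≠ 0) (h : e = e') (x : WithZero (Multiplicative ℤ)) :
    WithZeroMulInt.toNNReal he x = WithZeroMulInt.toNNReal he' x := by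
  subst h
  rfl

/-- absolute values of the elements of `K` at places over a totally split place -/
theorem nabs_map {K H : Type} [Field K] [NumberField K] [Field H] [NumberField H] [Algebra K H]
    (q : Place K) (Q : Place H) (hQ : Over K H Q q) (hs : TotallySplit K H q) (x : K) :
    nabs Q (algebraMap K H x) = nabs q x := by
  rcases Q with w | P <;> rcases q with v | p
  · have h1 : w.comap (algebraMap K H) = v := hQ
    have h2 : w.mult = v.mult := hs w h1
    change w (algebraMap K H x) ^ w.mult = v x ^ v.mult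
    rw [h2, ← h1, InfinitePlace.comap_apply]
  · exact hQ.elim
  · exact hQ.elim
  · have h1 : P.asIdeal.LiesOver p.asIdeal := hQ
    obtain ⟨h2, h3⟩ := hs P h1
    have hv : p.valuation K x = P.valuation H (algebraMap K H x) := by
      have h4 := HeightOneSpectrum.valuation_liesOver H p P x
      have h5 := P.isPrime
      have h6 := p.isPrime
      rw [Ideal.ramificationIdx'_eq_ramificationIdx p.asIdeal P.asIdeal p.ne_bot, h2, pow_one] at h4
      exact h4
    have hn : Ideal.absNorm P.asIdeal = Ideal.absNorm p.asIdeal := by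
      have h5 := P.isPrime
      have h4 := Ideal.absNorm_pow_inertiaDeg p.asIdeal P.asIdeal
      rw [h3, pow_one] at h4
      exact h4.symm
    change HeightOneSpectrum.adicAbv H P (algebraMap K H x) = HeightOneSpectrum.adicAbv K p x
    rw [NumberField.HeightOneSpectrum.adicAbv_def, NumberField.HeightOneSpectrum.adicAbv_def, ← hv]
    congr 1
    exact toNN_congr _ _ (by rw [hn]) _

/-- roots of elements of `K` -/
theorem abOm_root (K H : Type) [Field K] [NumberField K] [Field H] [NumberField H]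
    [Algebra K H] [IsAbelianGalois K H] (η : K) (hη : η ≠ 0) (c : ℕ) (t : ℤ) :
    AbOm K (Units.torsionOrder K * c) (algebraMap K H (η ^ ((c : ℤ) * t))) := by
  have := normal_closure K H
  let iH : H →ₐ[K] AlgebraicClosure H := IsScalarTower.toAlgHom K H (AlgebraicClosure H)
  have h2 : IsAbelianGalois K iH.fieldRange :=
    IsAbelianGalois.of_algHom (AlgEquiv.ofInjectiveField iH).symm.toAlgHom
  set w := Units.torsionOrder K with hw
  have hw0 : w ≠ 0 := Units.torsionOrder_ne_zero K
  obtain ⟨z, hz⟩ := IsAlgClosed.exists_pow_nat_eq (algebraMap K (AlgebraicClosure H) η)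
    (n := w) (Nat.pos_of_ne_zero hw0)
  have hz0 : z ≠ 0 := by
    rintro rfl
    rw [zero_pow hw0] at hz
    exact hη ((map_eq_zero_iff _ (algebraMap K (AlgebraicClosure H)).injective).1 hz.symm)
  obtain ⟨ζ, hζ⟩ := exists_zeta K
  have hζ1 : IsPrimitiveRoot (algebraMap K (AlgebraicClosure H) ζ) w :=
    hζ.map_of_injective (f := algebraMap K (AlgebraicClosure H)) (algebraMap K _).injective
  have hnz : NeZero w := ⟨hw0⟩
  have key : ∀ ρ : AlgebraicClosure H ≃ₐ[K] AlgebraicClosure H,
      ∃ i : ℕ, ρ z = (algebraMap K (AlgebraicClosure H) ζ) ^ i * z := by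
    intro ρ
    have h3 : (ρ z / z) ^ w = 1 := by
      rw [div_pow, ← map_pow, hz, AlgEquiv.commutes, div_self]
      rw [← hz]
      exact pow_ne_zero _ hz0
    obtain ⟨i, -, hi⟩ := hζ1.eq_pow_of_pow_eq_one h3
    refine ⟨i, ?_⟩
    rw [hi]
    field_simp
  have hzc : z ∈ commField K (AlgebraicClosure H) := by
    rw [mem_commField]
    intro σ τ
    obtain ⟨i, hi⟩ := key σ
    obtain ⟨j, hj⟩ := key τ
    rw [hj, hi, map_mul, map_mul, map_pow, map_pow, AlgEquiv.commutes, AlgEquiv.commutes, hi, hj]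
    ring
  refine ⟨commField K (AlgebraicClosure H), commField_abelian, fun h => ?_, z ^ t, ?_, ?_⟩
  · rw [mem_commField]
    intro σ τ
    exact comm_of_abelian iH.fieldRange σ τ _ ⟨h, rfl⟩
  · exact zpow_mem hzc t
  · rw [← IsScalarTower.algebraMap_apply, ← zpow_natCast, ← zpow_mul, map_zpow₀, ← hz,
      ← zpow_natCast z w, ← zpow_mul]
    congr 1
    push_cast
    ring


/-- A function with a simple zero at `0`. -/
theorem deriv_one {L : ℂ → ℂ} (hL : DifferentiableOn ℂ L {1}ᶜ) {q : ℂ}
    (h : Tendsto (fun s : ℂ => (s ^ 1)⁻¹ * L s) (𝓝[≠] 0) (𝓝 q)) : deriv L 0 = q := by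
  have hd : DifferentiableAt ℂ L 0 :=
    hL.differentiableAt (isOpen_compl_singleton.mem_nhds (by simp))
  have hs0 : Tendsto (fun s : ℂ => s) (𝓝[≠] 0) (𝓝 0) := tendsto_id.mono_left nhdsWithin_le_nhds
  have h0 : Tendsto L (𝓝[≠] 0) (𝓝 0) := by
    have h2 := hs0.mul h
    rw [zero_mul] at h2
    refine h2.congr' ?_
    filter_upwards [self_mem_nhdsWithin] with s hs
    have hs0 : s ≠ 0 := hs
    field_simp
  have hL0 : L 0 = 0 :=
    tendsto_nhds_unique (hd.continuousAt.tendsto.mono_left nhdsWithin_le_nhds) h0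
  have h3 := hd.hasDerivAt.tendsto_slope_zero
  have h4 : Tendsto (fun t : ℂ => t⁻¹ • (L (0 + t) - L 0)) (𝓝[≠] 0) (𝓝 q) := by
    refine h.congr' ?_
    filter_upwards [self_mem_nhdsWithin] with s hs
    rw [hL0, sub_zero, zero_add, smul_eq_mul, pow_one]
  exact tendsto_nhds_unique h3 h4

theorem sum_char {G : Type} [CommGroup G] [Fintype G] (χ : G →* ℂˣ) (hχ : χ ≠ 1) :
    ∑ g : G, ((χ g : ℂˣ) : ℂ) = 0 := by
  obtain ⟨x, hx⟩ : ∃ x : G, χ x ≠ 1 := by
    by_contra hcon
    push Not at hcon
    exact hχ (MonoidHom.ext hcon)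
  have h1 : ∑ g : G, ((χ g : ℂˣ) : ℂ) = ((χ x : ℂˣ) : ℂ) * ∑ g : G, ((χ g : ℂˣ) : ℂ) := by
    rw [Finset.mul_sum]
    refine (Fintype.sum_equiv (Equiv.mulLeft x) _ _ fun g => ?_).symm
    rw [Equiv.coe_mulLeft, map_mul, Units.val_mul]
  have h2 : (1 - ((χ x : ℂˣ) : ℂ)) * ∑ g : G, ((χ g : ℂˣ) : ℂ) = 0 := by
    linear_combination h1
  rcases mul_eq_zero.1 h2 with h3 | h3
  · exfalso
    apply hx
    apply Units.ext
    rw [Units.val_one]
    linear_combination -h3
  · exact h3

theorem card_S {K : Type} [Field K] [NumberField K] (S : Finset (Place K))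
    (hinf : ∀ v : InfinitePlace K, Sum.inl v ∈ S) :
    S.card = Fintype.card (InfinitePlace K) + S.toRight.card := by
  classical
  have h1 : S = (Finset.univ : Finset (InfinitePlace K)).disjSum S.toRight := by
    ext x
    rcases x with v | v
    · rw [Finset.inl_mem_disjSum]
      exact ⟨fun _ => Finset.mem_univ v, fun _ => hinf v⟩
    · rw [Finset.inr_mem_disjSum, Finset.mem_toRight]
  conv_lhs => rw [h1]
  rw [Finset.card_disjSum, Finset.card_univ]

/-- the derivatives of the partial zeta functions -/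
theorem derivs (K H G : Type) [Field K] [NumberField K] [Field H]
    [NumberField H] [Algebra K H] [CommGroup G] [Finite G] [MulSemiringAction G H]
    [IsGaloisGroup G K H] (e : Gal(H/K) ≃* G) (he : ∀ (g : Gal(H/K)) (x : H), e g • x = g x)
    (hG : ∀ g : G, g * g = 1) (S : Finset (Place K)) (hinf : ∀ v : InfinitePlace K, Sum.inl v ∈ S)
    (hram : ∀ v : HeightOneSpectrum (𝓞 K), Sum.inr v ∉ S → Unram K H v) (hcard : S.card = 2)
    (hall : ∀ q ∈ S, TotallySplit K H q) (a : Ideal (𝓞 K) → Gal(H/K)) (ha : IsArtin S a)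
    (Z : Gal(H/K) → ℂ → ℂ) (hZ : ∀ g, IsZeta S a g (Z g)) :
    ∃ q : ℝ, (∀ g, deriv (Z g) 0 = (q : ℂ) / (Nat.card G : ℂ)) ∧
      |q| * Units.torsionOrder K = classNumber K * Units.regulator K *
        ∏ v ∈ S.toRight, Real.log (Ideal.absNorm v.asIdeal) := by
  classical
  have hEul : Pool.Agent.STk.S_EUL := Pool.Agent.H596.ST.eul
  have hSpl : Pool.Agent.STk.S_SPL := Pool.Agent.H181.ST.spl
  have hUnr : Pool.Agent.STk.S_UNR := Pool.Agent.H588.ST.unr
  have hgal : IsGalois K H := IsGaloisGroup.isGalois G K H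
  let _ : Fintype G := Fintype.ofFinite G
  have hZ0 := Pool.Agent.H509.Z0.t_ZETA0X
  have hZP := Pool.Agent.H509.E2.zprod
  have hLim := Pool.Agent.K3h11.E2.t_LIMX
  have hLim1 := Pool.Agent.K3h66.E2.t_LIM1X
  have hLoc := Pool.Agent.K3h25.E2.t_LOC
  have hDict := Pool.Agent.K3h41.E2.t_DICT
  have hFrob := Pool.Agent.K3h72.E2.t_FROB hLoc
  have hFw := Pool.Agent.K3h72.E2.t_FINW hLoc
  have hIw := Pool.Agent.K3h50.E2.t_INFW
  have hCount := Pool.Agent.K3h50.E2.t_COUNT
  have hScard := card_S S hinf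
  -- the L-functions
  have hLd : ∀ χ : G →* ℂˣ, DifferentiableOn ℂ
      (fun s : ℂ => ∑ g : Gal(H/K), ((χ (e g) : ℂˣ) : ℂ) * Z g s) {1}ᶜ := by
    intro χ
    exact DifferentiableOn.fun_sum fun g _ => (hZ g).hol.const_mul _
  have hZd : ∀ g, DifferentiableAt ℂ (Z g) 0 := fun g =>
    (hZ g).hol.differentiableAt (isOpen_compl_singleton.mem_nhds (by simp))
  -- the trivial character
  obtain ⟨q, hq1, hq2⟩ := hLim1 hZ0 K S.toRight
    (fun s : ℂ => ∑ g : Gal(H/K), (((1 : G →* ℂˣ) (e g) : ℂˣ) : ℂ) * Z g s) (hLd 1)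
    (fun s hs => by
      have h1 := hEul K H G e S a ha Z hZ 1 s hs
      simpa using h1)
  have hexp : Fintype.card (InfinitePlace K) + S.toRight.card - 1 = 1 := by omega
  rw [hexp] at hq1
  have hd1 := deriv_one (hLd 1) hq1
  have hLz : ∀ χ : G →* ℂˣ, χ ≠ 1 →
      deriv (fun s : ℂ => ∑ g : Gal(H/K), ((χ (e g) : ℂˣ) : ℂ) * Z g s) 0 = 0 := by
    intro χ hχ
    have hE := hEul K H G e S a ha Z hZ χ
    have hsq : ∀ g : G, χ g * χ g = 1 := fun g => by rw [← map_mul, hG, map_one]
    have hex : ∃ g : G, χ g ≠ 1 := by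
      by_contra hcon
      push Not at hcon
      exact hχ (MonoidHom.ext hcon)
    obtain ⟨E, _, _, _, _, τ, hd⟩ := hDict K H G χ hsq hex
    have htw : IsScalarTower K E H := hd.tower
    obtain ⟨A0, hA0, hA0c⟩ := Pool.Agent.K3h56.E2.exists_over hLoc hd.quad S.toRight
    -- the infinite places
    have hA : Fintype.card {v : InfinitePlace K // Pool.Agent.K3h56.E2.SplAt H χ (Sum.inl v)} +
        Fintype.card (InfinitePlace K) = Fintype.card (InfinitePlace E) := by
      rw [← hCount K E τ hd.quad, Nat.card_eq_fintype_card]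
      congr 1
      exact Fintype.card_congr (Equiv.subtypeEquivRight fun v =>
        Pool.Agent.K3h56.E2.splAt_inl hIw hd v)
    set B : Finset (HeightOneSpectrum (𝓞 K)) :=
      S.toRight.filter fun v => Pool.Agent.K3h56.E2.loc E v = 1 with hBdef
    set A : Finset (InfinitePlace K) := Finset.univ.filter fun v =>
      Pool.Agent.K3h56.E2.SplAt H χ (Sum.inl v) with hAdef
    have hAcard : A.card + Fintype.card (InfinitePlace K) = Fintype.card (InfinitePlace E) := by
      rw [← hA, hAdef, Fintype.card_subtype]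
    set P : Finset (InfinitePlace K ⊕ HeightOneSpectrum (𝓞 K)) := A.disjSum B with hPdef
    have hPcard : P.card = A.card + B.card := Finset.card_disjSum _ _
    -- the totally split places belong to `P`
    have hPmem : ∀ x : Place K, x ∈ S → TotallySplit K H x → x ∈ P := by
      intro x hx hxs
      have h1 := (hSpl K H G x).1 hxs
      rcases x with v | v
      · rw [hPdef, Finset.inl_mem_disjSum, hAdef, Finset.mem_filter]
        refine ⟨Finset.mem_univ v, fun w hw γ hγ => ?_⟩
        rw [h1 (Sum.inl w) hw γ hγ, map_one]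
      · rw [hPdef, Finset.inr_mem_disjSum, hBdef, Finset.mem_filter]
        refine ⟨Finset.mem_toRight.2 hx,
          (Pool.Agent.K3h56.E2.splAt_inr hFw hd v).1 fun w hw γ hγ => ?_⟩
        rw [h1 (Sum.inr w) (Pool.Agent.H115.ST.over_iff.1 hw) γ hγ, map_one]
    have hP2 : 2 ≤ P.card := by
      have h1 : S ⊆ P := fun x hx => hPmem x hx (hall x hx)
      have h2 := Finset.card_le_card h1
      omega
    -- the Euler product
    have heuler : ∀ s : ℂ, 1 < s.re →
        HasProd (fun v : {v : HeightOneSpectrum (𝓞 K) // v ∉ S.toRight} =>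
          (1 - ((Pool.Agent.K3h56.E2.loc E (v : HeightOneSpectrum (𝓞 K)) : ℤ) : ℂ) *
            (Ideal.absNorm (v : HeightOneSpectrum (𝓞 K)).asIdeal : ℂ) ^ (-s))⁻¹)
          (∑ g : Gal(H/K), ((χ (e g) : ℂˣ) : ℂ) * Z g s) := by
      intro s hs
      have h1 := hE s hs
      have h2 : ∀ v : {v : HeightOneSpectrum (𝓞 K) // v ∉ S.toRight},
          ((χ (e (a (v : HeightOneSpectrum (𝓞 K)).asIdeal)) : ℂˣ) : ℂ) =
            ((Pool.Agent.K3h56.E2.loc E (v : HeightOneSpectrum (𝓞 K)) : ℤ) : ℂ) := fun v => by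
        have hv : Sum.inr (v : HeightOneSpectrum (𝓞 K)) ∉ S := fun h =>
          v.2 (Finset.mem_toRight.2 h)
        exact (hFrob K H G E τ χ hd v _ ((hUnr K H v).1 (hram v hv))
          (Pool.Agent.H115.ST.isFrob e he ha v hv)).symm
      simp only [h2] at h1
      exact h1
    obtain ⟨-, q1, hq1, -⟩ := hLim hZ0 hZP hLoc K E τ hd.quad S.toRight A0 hA0
      (fun s : ℂ => ∑ g : Gal(H/K), ((χ (e g) : ℂˣ) : ℂ) * Z g s) (hLd χ) heuler (by omega)
    exact Pool.Agent.H115.ST.deriv_zero (hLd χ) (by omega) hq1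
  have hderiv : ∀ χ : G →* ℂˣ,
      deriv (fun s : ℂ => ∑ g : Gal(H/K), ((χ (e g) : ℂˣ) : ℂ) * Z g s) 0 =
        ∑ g : G, ((χ g : ℂˣ) : ℂ) * deriv (Z (e.symm g)) 0 := by
    intro χ
    rw [deriv_fun_sum fun g _ => (hZd g).const_mul _]
    refine (Fintype.sum_equiv e.symm.toEquiv _ _ fun g => ?_).symm
    rw [deriv_const_mul_field]
    simp
  have hn0 : (Nat.card G : ℂ) ≠ 0 := by
    exact_mod_cast Nat.card_pos.ne'
  refine ⟨q, fun g0 => ?_, hq2⟩
  have h1 := Pool.Agent.H115.ST.orth
    (fun g : G => deriv (Z (e.symm g)) 0 - (q : ℂ) / (Nat.card G : ℂ)) (fun χ => by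
    have h2 : ∑ g : G, ((χ g : ℂˣ) : ℂ) * (deriv (Z (e.symm g)) 0 - (q : ℂ) / (Nat.card G : ℂ)) =
        (∑ g : G, ((χ g : ℂˣ) : ℂ) * deriv (Z (e.symm g)) 0) -
          (∑ g : G, ((χ g : ℂˣ) : ℂ)) * ((q : ℂ) / (Nat.card G : ℂ)) := by
      rw [Finset.sum_mul, ← Finset.sum_sub_distrib]
      exact Finset.sum_congr rfl fun g _ => by ring
    rw [h2, ← hderiv χ]
    by_cases hχ : χ = 1
    · subst hχ
      rw [hd1]
      have h3 : ∑ g : G, (((1 : G →* ℂˣ) g : ℂˣ) : ℂ) = (Nat.card G : ℂ) := by
        simp [Nat.card_eq_fintype_card]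
      rw [h3]
      field_simp
      ring
    · rw [hLz χ hχ, sum_char χ hχ, zero_mul, sub_zero]) (e g0)
  simp only [MulEquiv.symm_apply_apply] at h1
  exact sub_eq_zero.1 h1


open Pool.Agent.K3h56.E2 (cls CA)

theorem unram_of_split {K H : Type} [Field K] [NumberField K] [Field H] [NumberField H] [Algebra K H]
    (v : HeightOneSpectrum (𝓞 K)) (h : TotallySplit K H (Sum.inr v)) : Unram K H v :=
  fun P hP => (h P hP).1

/-- **The Artin map**: the order of the group divides the index of the classes of `S`. -/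
theorem card_dvd (K H G : Type) [Field K] [NumberField K] [Field H]
    [NumberField H] [Algebra K H] [CommGroup G] [Finite G] [MulSemiringAction G H]
    [IsGaloisGroup G K H] (S : Finset (Place K)) (hinf : ∀ v : InfinitePlace K, Sum.inl v ∈ S)
    (hram : ∀ v : HeightOneSpectrum (𝓞 K), Sum.inr v ∉ S → Unram K H v)
    (hall : ∀ q ∈ S, TotallySplit K H q) :
    Nat.card G ∣ (CA ((S.toRight : Finset (HeightOneSpectrum (𝓞 K))) :
      Set (HeightOneSpectrum (𝓞 K)))).index := by
  classical
  have hSpl : Pool.Agent.STk.S_SPL := Pool.Agent.H181.ST.spl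
  have hUnr : Pool.Agent.STk.S_UNR := Pool.Agent.H588.ST.unr
  have hgal : IsGalois K H := IsGaloisGroup.isGalois G K H
  have hcomm : SMulCommClass G K H := IsGaloisGroup.commutes
  have hun : ∀ v : HeightOneSpectrum (𝓞 K), Unram K H v := by
    intro v
    by_cases hv : Sum.inr v ∈ S
    · exact unram_of_split v (hall _ hv)
    · exact hram v hv
  have h := Pool.Agent.H509.Rec.artG (F := K) (K := K) (H := H) (G := G) ⊥ ⊤
    (fun γ => ⟨fun _ x => smul_algebraMap γ x, fun _ => Subgroup.mem_top γ⟩)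
    ((S.toRight : Finset (HeightOneSpectrum (𝓞 K))) : Set (HeightOneSpectrum (𝓞 K)))
    (fun w g hg => by
      have h1 : g = 1 := Pool.Agent.H509.Rec.inert_one (F := K) (K := K)
        (Pool.Agent.H509.Rec.unr_of_squarefree ((hUnr K H _).1 (hun _))) hg
      rw [h1, map_one]
      exact Subgroup.one_mem _)
    (fun w hw g hg => by
      have h1 := Pool.Agent.H509.Rec.fixes_of_act (F := K) (K := K) (G := G) hg
      have h2 : Sum.inr (w.under (𝓞 K)) ∈ S := Finset.mem_toRight.1 hw
      have h3 := (hSpl K H G (Sum.inr (w.under (𝓞 K)))).1 (hall _ h2) (Sum.inr w)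
        (show w.asIdeal.LiesOver (w.under (𝓞 K)).asIdeal from ⟨rfl⟩) _ h1
      rw [h3]
      exact Subgroup.one_mem _)
    (fun ι g hg => by
      have h1 := Pool.Agent.H509.Rec.fixes_of_conj (F := K) (K := K) (G := G) hg
      have h3 := (hSpl K H G (Sum.inl ((InfinitePlace.mk ι).comap (algebraMap K H)))).1
        (hall _ (hinf _)) (Sum.inl (InfinitePlace.mk ι)) rfl _ h1
      rw [h3]
      exact Subgroup.one_mem _)
    ⊥
    (fun N hN hR c hc => by
      rw [Subgroup.mem_bot] at hc
      subst hc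
      refine ⟨0, AddSubgroup.zero_mem _, ?_, fun κ => map_zero _⟩
      rw [map_zero, ofMul_one])
  rw [sup_bot_eq, Subgroup.relIndex_top_right, Subgroup.index_bot] at h
  exact h

/-- The class of a prime ideal: generator of its first principal power. -/
theorem prime_pow {K : Type} [Field K] [NumberField K] (v : HeightOneSpectrum (𝓞 K)) :
    ∃ (r : 𝓞 K) (m : ℕ), 0 < m ∧ v.asIdeal ^ m = Ideal.span {r} ∧
      (CA ({v} : Set (HeightOneSpectrum (𝓞 K)))).index * m = classNumber K := by
  have hfin : Finite (ClassGroup (𝓞 K)) := inferInstance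
  refine ?_
  set m := orderOf (cls v) with hm
  have hm0 : 0 < m := orderOf_pos _
  have h1 : cls v ^ m = 1 := pow_orderOf_eq_one _
  have h2 : v.asIdeal ^ m ∈ nonZeroDivisors (Ideal (𝓞 K)) :=
    pow_mem (mem_nonZeroDivisors_of_ne_zero v.ne_bot) m
  have h3 : ClassGroup.mk0 ⟨v.asIdeal ^ m, h2⟩ = 1 := by
    rw [← h1]
    unfold cls
    rw [← map_pow]
    rfl
  rw [ClassGroup.mk0_eq_one_iff] at h3
  obtain ⟨r, hr⟩ := h3.principal
  refine ⟨r, m, hm0, hr, ?_⟩
  have h4 : CA ({v} : Set (HeightOneSpectrum (𝓞 K))) = Subgroup.zpowers (cls v) := by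
    unfold CA
    rw [Set.image_singleton, Subgroup.zpowers_eq_closure]
  have h5 := Subgroup.index_mul_card (Subgroup.zpowers (cls v))
  rw [Nat.card_zpowers] at h5
  rw [h4, h5]
  unfold classNumber
  exact Nat.card_eq_fintype_card

theorem nabs_inr_of_valuation {K : Type} [Field K] [NumberField K] {v : HeightOneSpectrum (𝓞 K)}
    {x : K} (h : v.valuation K x = 1) : nabs (Sum.inr v : Place K) x = 1 := by
  change HeightOneSpectrum.adicAbv K v x = 1
  rw [NumberField.HeightOneSpectrum.adicAbv_def, h, map_one, NNReal.coe_one]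

/-- Absolute values of the generator. -/
theorem nabs_gen {K : Type} [Field K] [NumberField K] (v : HeightOneSpectrum (𝓞 K)) (r : 𝓞 K)
    (m : ℕ) (hm : v.asIdeal ^ m = Ideal.span {r}) :
    (r : K) ≠ 0 ∧ (∀ u : HeightOneSpectrum (𝓞 K), u ≠ v → nabs (Sum.inr u : Place K) (r : K) = 1) ∧
      Real.log (nabs (Sum.inr v : Place K) (r : K)) =
        -(m * Real.log (Ideal.absNorm v.asIdeal)) ∧
      (Fintype.card (InfinitePlace K) = 1 → ∀ w : InfinitePlace K,
        Real.log (nabs (Sum.inl w : Place K) (r : K)) = m * Real.log (Ideal.absNorm v.asIdeal)) := by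
  have hr0 : r ≠ 0 := by
    rintro rfl
    rw [Ideal.span_singleton_eq_bot.2 rfl] at hm
    exact pow_ne_zero m v.ne_bot hm
  have hrK : (r : K) ≠ 0 := by
    intro h
    exact hr0 (RingOfIntegers.ext (by rw [h]; rfl))
  refine ⟨hrK, ?_, ?_, ?_⟩
  · intro u hu
    apply nabs_inr_of_valuation
    have h1 : ¬ (r ∈ u.asIdeal) := by
      intro h
      apply hu
      have h2 : v.asIdeal ^ m ≤ u.asIdeal := by
        rw [hm, Ideal.span_singleton_le_iff_mem]
        exact h
      have h3 : v.asIdeal ≤ u.asIdeal := u.isPrime.le_of_pow_le h2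
      apply HeightOneSpectrum.ext
      exact (v.isMaximal.eq_of_le u.isPrime.ne_top h3).symm
    have h2 : v.valuation K (r : K) = v.intValuation r := v.valuation_of_algebraMap r
    have h3 : u.valuation K (r : K) = u.intValuation r := u.valuation_of_algebraMap r
    rw [h3]
    by_contra hne
    have h4 : u.intValuation r < 1 := lt_of_le_of_ne (u.intValuation_le_one r) hne
    exact h1 ((u.intValuation_lt_one_iff_mem r).1 h4)
  · have h2 : v.valuation K (r : K) = v.intValuation r := v.valuation_of_algebraMap r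
    have h3 := v.intValuation_eq_exp_neg_multiplicity hr0
    rw [← hm, multiplicity_pow_self v.ne_bot v.prime.not_isUnit m] at h3
    change Real.log (HeightOneSpectrum.adicAbv K v (r : K)) = _
    have h4 : v.valuation K (r : K) ≠ 0 := (v.valuation K).ne_zero_iff.2 hrK
    rw [NumberField.HeightOneSpectrum.adicAbv_def, WithZeroMulInt.toNNReal_neg_apply _ h4,
      NNReal.coe_zpow, Real.log_zpow]
    have h5 : Multiplicative.toAdd (WithZero.unzero h4) = -(m : ℤ) := by
      have h6 : ((WithZero.unzero h4 : Multiplicative ℤ) : WithZero (Multiplicative ℤ)) =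
          WithZero.exp (-(m : ℤ)) := by
        rw [WithZero.coe_unzero, h2, h3]
      have h7 : WithZero.unzero h4 = Multiplicative.ofAdd (-(m : ℤ)) := WithZero.coe_injective h6
      rw [h7, toAdd_ofAdd]
    rw [h5]
    push_cast
    ring
  · intro hc w
    have h1 := InfinitePlace.prod_eq_abs_norm (r : K)
    have h2 : ∏ u : InfinitePlace K, u (r : K) ^ u.mult = w (r : K) ^ w.mult := by
      apply Finset.prod_eq_single w
      · intro u _ hu
        exact absurd (Fintype.card_le_one_iff.1 hc.le u w) hu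
      · intro h
        exact absurd (Finset.mem_univ w) h
    change Real.log (w (r : K) ^ w.mult) = _
    rw [← h2, h1]
    have h3 : (|Algebra.norm ℚ (r : K)| : ℚ) = (Ideal.absNorm (Ideal.span {r}) : ℚ) := by
      rw [Ideal.absNorm_span_singleton, ← Algebra.coe_norm_int, Nat.cast_natAbs, Int.cast_abs]
    rw [h3, ← hm, map_pow]
    push_cast
    rw [Real.log_pow]


/-- **The units**: the two cases. -/
theorem units_core {K : Type} [Field K] [NumberField K] (S : Finset (Place K))
    (hinf : ∀ v : InfinitePlace K, Sum.inl v ∈ S) (hcard : S.card = 2) (p : Place K) (hp : p ∈ S) :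
    ∃ (η : K) (m : ℕ), η ≠ 0 ∧ 0 < m ∧
      (∀ v : HeightOneSpectrum (𝓞 K), Sum.inr v ∉ S → nabs (Sum.inr v : Place K) η = 1) ∧
      (CA ((S.toRight : Finset (HeightOneSpectrum (𝓞 K))) :
        Set (HeightOneSpectrum (𝓞 K)))).index * m = classNumber K ∧
      |Real.log (nabs p η)| = m * (Units.regulator K *
        ∏ v ∈ S.toRight, Real.log (Ideal.absNorm v.asIdeal)) := by
  classical
  have hS := card_S S hinf
  have hpos : 0 < Fintype.card (InfinitePlace K) := Fintype.card_pos
  have hrank : Units.rank K = Fintype.card (InfinitePlace K) - 1 := rfl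
  rcases (by omega : (Fintype.card (InfinitePlace K) = 2 ∧ S.toRight.card = 0) ∨
    (Fintype.card (InfinitePlace K) = 1 ∧ S.toRight.card = 1)) with ⟨hc, hr⟩ | ⟨hc, hr⟩
  · -- two infinite places
    have hr0 : S.toRight = ∅ := Finset.card_eq_zero.1 hr
    obtain ⟨p0, rfl⟩ : ∃ p0 : InfinitePlace K, p = Sum.inl p0 := by
      rcases p with p0 | v
      · exact ⟨p0, rfl⟩
      · exfalso
        have h1 : v ∈ S.toRight := Finset.mem_toRight.2 hp
        rw [hr0] at h1
        exact Finset.notMem_empty v h1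
    obtain ⟨q0, hq0⟩ : ∃ q0 : InfinitePlace K, q0 ≠ p0 := by
      have h1 : 1 < Fintype.card (InfinitePlace K) := by omega
      exact Fintype.exists_ne_of_one_lt_card h1 p0
    have hcq : Fintype.card {w : InfinitePlace K // w ≠ q0} = Units.rank K := by
      rw [hrank]
      have := Fintype.card_subtype_compl (fun w : InfinitePlace K => w = q0)
      rw [Fintype.card_subtype_eq] at this
      exact this
    let e : {w : InfinitePlace K // w ≠ q0} ≃ Fin (Units.rank K) := Fintype.equivFinOfCardEq hcq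
    have hsub : ∀ x y : {w : InfinitePlace K // w ≠ q0}, x = y := by
      have h1 : Fintype.card {w : InfinitePlace K // w ≠ q0} ≤ 1 := by
        rw [hcq, hrank]
        omega
      exact Fintype.card_le_one_iff.1 h1
    let d0 : {w : InfinitePlace K // w ≠ q0} := ⟨p0, hq0.symm⟩
    letI : Unique {w : InfinitePlace K // w ≠ q0} := ⟨⟨d0⟩, fun x => hsub x d0⟩
    have hreg := Units.regulator_eq_det K q0 e
    rw [Matrix.det_unique] at hreg
    set u : (𝓞 K)ˣ := Units.fundSystem K (e default) with hu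
    refine ⟨(u : K), 1, Units.coe_ne_zero u, Nat.one_pos, fun v _ => ?_, ?_, ?_⟩
    · apply nabs_inr_of_valuation
      have h1 : v.valuation K (u : K) ≤ 1 := v.valuation_le_one (u : 𝓞 K)
      have h2 : v.valuation K ((u⁻¹ : (𝓞 K)ˣ) : K) ≤ 1 := v.valuation_le_one ((u⁻¹ : (𝓞 K)ˣ) : 𝓞 K)
      have h3 : (u : K) * ((u⁻¹ : (𝓞 K)ˣ) : K) = 1 := by
        rw [← Units.coe_mul, mul_inv_cancel, Units.coe_one]
      have h4 : v.valuation K (u : K) * v.valuation K ((u⁻¹ : (𝓞 K)ˣ) : K) = 1 := by
        rw [← map_mul, h3, map_one]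
      apply le_antisymm h1
      rw [← h4]
      exact mul_le_of_le_one_right' h2
    · rw [hr0, mul_one]
      have h1 : CA ((∅ : Finset (HeightOneSpectrum (𝓞 K))) : Set (HeightOneSpectrum (𝓞 K))) = ⊥ := by
        unfold CA
        rw [Finset.coe_empty, Set.image_empty, Subgroup.closure_empty]
      rw [h1, Subgroup.index_bot]
      unfold classNumber
      exact Nat.card_eq_fintype_card
    · rw [hr0, Finset.prod_empty, mul_one, Nat.cast_one, one_mul, hreg]
      congr 1
      change Real.log (p0 (u : K) ^ p0.mult) = _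
      rw [Real.log_pow]
      rfl
  · -- one infinite place, one prime ideal
    obtain ⟨v, hv⟩ := Finset.card_eq_one.1 hr
    obtain ⟨r, m, hm0, hm, hidx⟩ := prime_pow v
    obtain ⟨hr0, hne, hlv, hlinf⟩ := nabs_gen v r m hm
    have hreg : Units.regulator K = 1 := by
      obtain ⟨q0⟩ : Nonempty (InfinitePlace K) := inferInstance
      have hcq : Fintype.card {w : InfinitePlace K // w ≠ q0} = Units.rank K := by
        rw [hrank]
        have := Fintype.card_subtype_compl (fun w : InfinitePlace K => w = q0)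
        rw [Fintype.card_subtype_eq] at this
        exact this
      let e : {w : InfinitePlace K // w ≠ q0} ≃ Fin (Units.rank K) := Fintype.equivFinOfCardEq hcq
      have hemp : IsEmpty {w : InfinitePlace K // w ≠ q0} := by
        rw [← Fintype.card_eq_zero_iff, hcq, hrank]
        omega
      have h := Units.regulator_eq_det K q0 e
      rw [Matrix.det_isEmpty, abs_one] at h
      exact h
    refine ⟨(r : K), m, hr0, hm0, fun u hu => hne u ?_, ?_, ?_⟩
    · rintro rfl
      apply hu
      have h1 : u ∈ S.toRight := by rw [hv]; exact Finset.mem_singleton_self u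
      exact Finset.mem_toRight.1 h1
    · rw [hv, Finset.coe_singleton]
      exact hidx
    · rw [hv, Finset.prod_singleton, hreg, one_mul]
      have hN : 0 ≤ Real.log (Ideal.absNorm v.asIdeal) := Real.log_natCast_nonneg _
      have hmN : 0 ≤ (m : ℝ) * Real.log (Ideal.absNorm v.asIdeal) := by positivity
      rcases p with w | v'
      · rw [hlinf hc w, abs_of_nonneg hmN]
      · have h1 : v' ∈ S.toRight := Finset.mem_toRight.2 hp
        rw [hv, Finset.mem_singleton] at h1
        subst h1
        rw [hlv, abs_neg, abs_of_nonneg hmN]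

theorem nabs_pow {K : Type} [Field K] [NumberField K] (q : Place K) (x : K) (k : ℤ) :
    nabs q (x ^ k) = nabs q x ^ k := by
  rcases q with w | v
  · change w (x ^ k) ^ w.mult = (w x ^ w.mult) ^ k
    rw [map_zpow₀, ← zpow_natCast, ← zpow_natCast, ← zpow_mul, ← zpow_mul, mul_comm]
  · change HeightOneSpectrum.adicAbv K v (x ^ k) = HeightOneSpectrum.adicAbv K v x ^ k
    rw [map_zpow₀]

/-- the roots of unity of `K` and of `H` -/
theorem tors_dvd (K H : Type) [Field K] [NumberField K] [Field H] [NumberField H] [Algebra K H] :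
    Units.torsionOrder K ∣ W H := by
  obtain ⟨ζ, hζ⟩ := exists_zeta K
  have h1 : IsPrimitiveRoot (algebraMap K H ζ) (Units.torsionOrder K) :=
    hζ.map_of_injective (f := algebraMap K H) (algebraMap K H).injective
  have hu : IsUnit (algebraMap K H ζ) := h1.isUnit (Units.torsionOrder_ne_zero K)
  have h2 : IsPrimitiveRoot hu.unit (Units.torsionOrder K) :=
    IsPrimitiveRoot.coe_units_iff.1 h1
  have h3 : hu.unit ∈ CommGroup.torsion Hˣ := by
    rw [CommGroup.mem_torsion, isOfFinOrder_iff_pow_eq_one]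
    exact ⟨_, Nat.pos_of_ne_zero (Units.torsionOrder_ne_zero K), h2.pow_eq_one⟩
  have h4 : orderOf (⟨hu.unit, h3⟩ : CommGroup.torsion Hˣ) = Units.torsionOrder K := by
    rw [← Subgroup.orderOf_coe]
    exact h2.eq_orderOf.symm
  have h5 := orderOf_dvd_natCard (⟨hu.unit, h3⟩ : CommGroup.torsion Hˣ)
  rw [h4] at h5
  exact h5

theorem two : Pool.Agent.STk.S_TWO := by
  intro K H G _ _ _ _ _ _ _ _ _ e he hG S p hD hcard hall P hP a ha Z hZ
  have hgal : IsGalois K H := IsGaloisGroup.isGalois G K H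
  have hab : IsAbelianGalois K H := by
    refine { is_comm := ⟨fun σ τ => ?_⟩ }
    apply e.injective
    rw [map_mul, map_mul, mul_comm]
  obtain ⟨q, hq1, hq2⟩ := derivs K H G e he hG S hD.arch hD.ram hcard hall a ha Z hZ
  obtain ⟨t0, ht0⟩ := card_dvd K H G S hD.arch hD.ram hall
  obtain ⟨η, m, hη0, hm0, hout, hidx, hlog⟩ := units_core S hD.arch hcard p hD.mem
  obtain ⟨c, hc⟩ := tors_dvd K H
  set w := Units.torsionOrder K with hw
  have hw0 : 0 < w := Units.torsionOrder_pos K
  have hn0 : 0 < Nat.card G := Nat.card_pos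
  -- the size
  have hsize : |Real.log (nabs p η)| * (c * t0) * Nat.card G = W H * |q| := by
    have h1 : (classNumber K : ℝ) = Nat.card G * t0 * m := by
      rw [← hidx, ht0]
      push_cast
      ring
    have h2 : (W H : ℝ) = w * c := by
      rw [hc]
      push_cast
      ring
    rw [hlog, h2]
    have h3 : (w : ℝ) * c * |q| = c * (|q| * w) := by ring
    rw [h3, hq2, h1]
    ring
  -- the sign
  obtain ⟨sg, hsg⟩ : ∃ sg : ℤ, (sg : ℝ) * Real.log (nabs p η) * (c * t0) * Nat.card G =
      -(W H * q) := by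
    rcases abs_cases (Real.log (nabs p η)) with ⟨h1, -⟩ | ⟨h1, -⟩ <;>
      rcases abs_cases q with ⟨h2, -⟩ | ⟨h2, -⟩ <;> rw [h1, h2] at hsize
    · exact ⟨-1, by push_cast; linear_combination -hsize⟩
    · exact ⟨1, by push_cast; linear_combination hsize⟩
    · exact ⟨1, by push_cast; linear_combination -hsize⟩
    · exact ⟨-1, by push_cast; linear_combination hsize⟩
  set k : ℤ := (c : ℤ) * (sg * t0) with hk
  have hval : ∀ (r : Place K) (Q : Place H), Over K H Q r → TotallySplit K H r →
      nabs Q (algebraMap K H (η ^ k)) = nabs r η ^ k := by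
    intro r Q hQ hs
    rw [nabs_map r Q hQ hs, nabs_pow]
  have hun : ∀ v : HeightOneSpectrum (𝓞 K), Sum.inr v ∉ S → ∀ Q : HeightOneSpectrum (𝓞 H),
      Over K H (Sum.inr Q) (Sum.inr v) → nabs (Sum.inr Q : Place H) (algebraMap K H (η ^ k)) = 1 := by
    intro v hv Q hQ
    have h1 := hout v hv
    have hQ' : Q.asIdeal.LiesOver v.asIdeal := hQ
    apply nabs_inr_of_valuation
    have h2 : v.valuation K η = 1 := by
      change (NumberField.HeightOneSpectrum.adicAbv K v η : ℝ) = 1 at h1
      rw [NumberField.HeightOneSpectrum.adicAbv_def] at h1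
      have h3 : WithZeroMulInt.toNNReal (NumberField.HeightOneSpectrum.absNorm_ne_zero v)
          (v.valuation K η) = 1 := by exact_mod_cast h1
      refine (WithZeroMulInt.toNNReal_eq_one_iff _ _ ?_).1 h3
      exact (NumberField.HeightOneSpectrum.one_lt_absNorm_nnreal v).ne'
    rw [← HeightOneSpectrum.valuation_liesOver H v Q, map_zpow₀, h2, one_zpow, one_pow]
  refine ⟨algebraMap K H (η ^ k), ?_, ?_, ?_⟩
  · refine ⟨?_, ?_, ?_, ?_⟩
    · rw [Ne, map_eq_zero_iff _ (algebraMap K H).injective]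
      exact zpow_ne_zero k hη0
    · intro r hr Q hQ
      rcases r with v | v
      · exact absurd (hD.arch v) hr
      · rcases Q with Q | Q
        · exact hQ.elim
        · exact hun v hr Q hQ
    · intro h3
      omega
    · intro _ r hr _ Q Q' hQ hQ'
      rw [hval r Q hQ (hall r hr), hval r Q' hQ' (hall r hr)]
  · intro g
    rw [AlgEquiv.commutes, hval p P hP hD.split, Real.log_zpow, hq1 g]
    have hn : (Nat.card G : ℂ) ≠ 0 := by exact_mod_cast hn0.ne'
    have h1 : ((k : ℝ) * Real.log (nabs p η)) * Nat.card G = -(W H * q) := by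
      rw [← hsg, hk]
      push_cast
      ring
    have h2 : (((k : ℝ) * Real.log (nabs p η) : ℝ) : ℂ) * (Nat.card G : ℂ) = -((W H : ℂ) * q) := by
      exact_mod_cast h1
    rw [← mul_div_assoc, eq_neg_iff_add_eq_zero]
    field_simp
    linear_combination h2
  · have h1 := abOm_root K H η hη0 c (sg * t0)
    rw [← hw, ← hc] at h1
    exact h1.abRoot

end Pool.Agent.H79.ST
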